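import Mathlib

set_option autoImplicit false
set_option linter.unusedSectionVars false

/-! Symmetric Boolean functions which are sums of functions of few variables are constant. -/

namespace Pool.Agent.TH410.LR

open Finset

/-- a sequence with vanishing higher differences and values 0, 1 is constant -/
theorem const_of_diff (q : ℕ → ℝ) (b K : ℕ) (hK : 2 * b ≤ K)
    (hq : ∀ m ≤ K, q m = 0 ∨ q m = 1)
    (hd : ∀ i, b < i → i ≤ K → (fwdDiff 1)^[i] q 0 = 0) : ∀ m ≤ K, q m = q 0 := by
  set p : Polynomial ℝ := ∑ k ∈ range (b + 1),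
    Polynomial.C ((fwdDiff 1)^[k] q 0 / k.factorial) * descPochhammer ℝ k with hp
  have hpe : ∀ m ≤ K, p.eval (m : ℝ) = q m := by
    intro m hm
    have h1 := shift_eq_sum_fwdDiff_iter (h := (1 : ℕ)) q m 0
    rw [smul_eq_mul, mul_one, zero_add] at h1
    rw [h1, hp, Polynomial.eval_finsetSum]
    have h2 : ∀ k, (Polynomial.C ((fwdDiff 1)^[k] q 0 / k.factorial) * descPochhammer ℝ k).eval
        (m : ℝ) = m.choose k • (fwdDiff 1)^[k] q 0 := by
      intro k
      rw [Polynomial.eval_mul, Polynomial.eval_C, descPochhammer_eval_eq_descFactorial,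
        Nat.descFactorial_eq_factorial_mul_choose, nsmul_eq_mul]
      have : (k.factorial : ℝ) ≠ 0 := by exact_mod_cast k.factorial_ne_zero
      push_cast
      field_simp
    rw [sum_congr rfl (fun k _ => h2 k)]
    rcases le_total (m + 1) (b + 1) with h3 | h3
    · symm
      apply Finset.sum_subset (range_subset_range.2 h3)
      intro k _ hk
      rw [mem_range, not_lt] at hk
      rw [Nat.choose_eq_zero_of_lt (by omega), zero_smul]
    · apply Finset.sum_subset (range_subset_range.2 h3)
      intro k hk1 hk
      rw [mem_range] at hk1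
      rw [mem_range, not_lt] at hk
      rw [hd k (by omega) (by omega), smul_zero]
  have hdeg : p.natDegree ≤ b := by
    rw [hp]
    apply Polynomial.natDegree_sum_le_of_forall_le
    intro k hk
    rw [mem_range] at hk
    refine (Polynomial.natDegree_C_mul_le _ _).trans ?_
    rw [descPochhammer_natDegree]
    omega
  have hpig : ∃ v : ℝ, b < ((range (2 * b + 1)).filter (fun m => q m = v)).card := by
    by_contra hcon
    push Not at hcon
    have h0 := hcon 0
    have h1 := hcon 1
    have h2 : (range (2 * b + 1)) ⊆ (range (2 * b + 1)).filter (fun m => q m = 0) ∪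
        (range (2 * b + 1)).filter (fun m => q m = 1) := by
      intro m hm
      have hm' := mem_range.1 hm
      rw [mem_union, mem_filter, mem_filter]
      rcases hq m (by omega) with h | h
      · exact Or.inl ⟨hm, h⟩
      · exact Or.inr ⟨hm, h⟩
    have h3 := (card_le_card h2).trans (card_union_le _ _)
    rw [card_range] at h3
    omega
  obtain ⟨v, hv⟩ := hpig
  have hpv : p - Polynomial.C v = 0 := by
    apply Polynomial.eq_zero_of_natDegree_lt_card_of_eval_eq_zero' (p - Polynomial.C v)
      (((range (2 * b + 1)).filter (fun m => q m = v)).image (fun m : ℕ => (m : ℝ)))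
    · intro x hx
      rw [mem_image] at hx
      obtain ⟨m, hm, rfl⟩ := hx
      rw [mem_filter, mem_range] at hm
      rw [Polynomial.eval_sub, Polynomial.eval_C, hpe m (by omega), hm.2, sub_self]
    · rw [card_image_of_injective _ Nat.cast_injective]
      refine lt_of_le_of_lt ?_ hv
      refine (Polynomial.natDegree_sub_le _ _).trans ?_
      rw [Polynomial.natDegree_C]
      simpa using hdeg
  have hall : ∀ m ≤ K, q m = v := by
    intro m hm
    rw [← hpe m hm]
    have := congrArg (Polynomial.eval (m : ℝ)) hpv
    rw [Polynomial.eval_sub, Polynomial.eval_C, Polynomial.eval_zero] at this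
    linarith
  intro m hm
  rw [hall m hm, hall 0 (Nat.zero_le _)]

/-- symmetric 0,1-valued sums of functions of at most `b` of the `K` coordinates are constant -/
theorem sym_const {κ : Type} (K b : ℕ) (hK : 2 * b ≤ K) (h : Finset (Fin K) → ℝ)
    (h01 : ∀ T, h T = 0 ∨ h T = 1)
    (hsym : ∀ T T' : Finset (Fin K), T.card = T'.card → h T = h T')
    (s : Finset κ) (c : κ → ℝ) (φ : κ → Finset (Fin K) → ℝ) (J : κ → Finset (Fin K))
    (hsum : ∀ T, h T = ∑ i ∈ s, c i * φ i T)
    (hJ : ∀ i ∈ s, c i ≠ 0 → (J i).card ≤ b ∧ ∀ T, φ i T = φ i (T ∩ J i)) :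
    ∀ T, h T = h ∅ := by
  classical
  -- representatives
  have hex : ∀ m ≤ K, ∃ T : Finset (Fin K), T.card = m := by
    intro m hm
    obtain ⟨T, _, hT⟩ := Finset.exists_subset_card_eq
      (s := (univ : Finset (Fin K))) (n := m) (by rw [card_univ, Fintype.card_fin]; exact hm)
    exact ⟨T, hT⟩
  let q : ℕ → ℝ := fun m => if hm : m ≤ K then h (hex m hm).choose else 0
  have hq : ∀ T : Finset (Fin K), q T.card = h T := by
    intro T
    have hm : T.card ≤ K := (card_le_univ T).trans (by rw [Fintype.card_fin])
    simp only [q, dif_pos hm]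
    exact hsym _ _ (hex T.card hm).choose_spec
  have hd : ∀ i, b < i → i ≤ K → (fwdDiff 1)^[i] q 0 = 0 := by
    intro i hbi hiK
    obtain ⟨A, hA⟩ := hex i hiK
    rw [fwdDiff_iter_eq_sum_shift]
    have h1 : ∑ k ∈ range (i + 1), ((-1 : ℤ) ^ (i - k) * (i.choose k : ℤ)) • q (0 + k • 1) =
        ∑ T ∈ A.powerset, (-1 : ℝ) ^ (i - T.card) * h T := by
      rw [Finset.sum_powerset, hA]
      refine sum_congr rfl fun k _ => ?_
      rw [Finset.sum_congr rfl (g := fun _ => (-1 : ℝ) ^ (i - k) * q k)]
      · rw [sum_const, card_powersetCard, hA, zsmul_eq_mul, nsmul_eq_mul]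
        simp only [smul_eq_mul, mul_one, zero_add]
        push_cast
        ring
      · intro T hT
        rw [mem_powersetCard] at hT
        rw [← hq T, hT.2]
    rw [h1]
    simp only [hsum, mul_sum]
    rw [sum_comm]
    refine sum_eq_zero fun j hj => ?_
    by_cases hc : c j = 0
    · refine sum_eq_zero fun T _ => ?_
      rw [hc, zero_mul, mul_zero]
    obtain ⟨hJ1, hJ2⟩ := hJ j hj hc
    obtain ⟨a, ha, haJ⟩ : ∃ a ∈ A, a ∉ J j := by
      by_contra hcon
      push Not at hcon
      have := card_le_card (fun a ha => hcon a ha : A ⊆ J j)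
      omega
    have hAe : A = insert a (A.erase a) := (insert_erase ha).symm
    rw [hAe, sum_powerset_insert (notMem_erase a A)]
    rw [← sum_add_distrib]
    refine sum_eq_zero fun T hT => ?_
    rw [mem_powerset] at hT
    have haT : a ∉ T := fun h => notMem_erase a A (hT h)
    have hTc : T.card + 1 ≤ i := by
      have h2 := card_le_card hT
      rw [card_erase_of_mem ha, hA] at h2
      omega
    have h3 : φ j (insert a T) = φ j T := by
      rw [hJ2 (insert a T), hJ2 T]
      congr 1
      rw [insert_inter_of_notMem haJ]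
    rw [h3, card_insert_of_notMem haT]
    have h4 : i - T.card = (i - (T.card + 1)) + 1 := by omega
    rw [h4, pow_succ]
    ring
  have hmain := const_of_diff q b K hK (by
    intro m hm
    simp only [q, dif_pos hm]
    exact h01 _) hd
  intro T
  have hm : T.card ≤ K := (card_le_univ T).trans (by rw [Fintype.card_fin])
  rw [← hq T, hmain _ hm, ← hq ∅, card_empty]

end Pool.Agent.TH410.LR
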