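import Pool.Agent.TH410.LR.Four
import Pool.Agent.TH410.LR.Sym

set_option autoImplicit false
set_option linter.unusedSectionVars false

/-! Actions of a symmetric group, supports. -/

namespace Pool.Agent.TH410.LR

open Finset Equiv

section Ext

variable {α : Type} [Fintype α] [DecidableEq α]

theorem ext_perm (X : Finset α) (w : α → α) (hw : Set.InjOn w X) :
    ∃ g : Perm α, ∀ a ∈ X, g a = w a := by
  obtain ⟨σ, hσ⟩ := Equiv.Perm.exists_extending_pair (fun x : X => (x : α))
    (fun x : X => w x) Subtype.val_injective (fun x y h => Subtype.ext (hw x.2 y.2 h))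
  exact ⟨σ, fun a ha => hσ ⟨a, ha⟩⟩

/-- moving a set into `A` with `B` fixed -/
theorem move (X A B : Finset α) (hBA : B ⊆ A) (hc : B.card + X.card ≤ A.card) :
    ∃ g : Perm α, (∀ a ∈ B, g a = a) ∧ ∀ a ∈ X, g a ∈ A := by
  have h1 : Fintype.card {a // a ∈ X \ B} ≤ Fintype.card {a // a ∈ A \ B} := by
    rw [Fintype.card_coe, Fintype.card_coe, card_sdiff_of_subset hBA]
    have := card_le_card (sdiff_subset (s := X) (t := B))
    omega
  obtain ⟨e⟩ := Function.Embedding.nonempty_of_card_le h1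
  obtain ⟨g, hg⟩ := ext_perm (B ∪ X) (fun a => if h : a ∈ X \ B then (e ⟨a, h⟩ : α) else a) (by
    intro a ha a' ha' h
    simp only at h
    by_cases h1 : a ∈ X \ B <;> by_cases h2 : a' ∈ X \ B
    · rw [dif_pos h1, dif_pos h2] at h
      have h3 := e.injective (Subtype.ext h)
      exact congrArg Subtype.val h3
    · rw [dif_pos h1, dif_neg h2] at h
      exfalso
      have h3 := (e ⟨a, h1⟩).2
      rw [h, mem_sdiff] at h3
      rw [mem_sdiff, not_and, not_not] at h2
      rcases mem_union.1 (mem_coe.1 ha') with h4 | h4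
      · exact h3.2 h4
      · exact h3.2 (h2 h4)
    · rw [dif_neg h1, dif_pos h2] at h
      exfalso
      have h3 := (e ⟨a', h2⟩).2
      rw [← h, mem_sdiff] at h3
      rw [mem_sdiff, not_and, not_not] at h1
      rcases mem_union.1 (mem_coe.1 ha) with h4 | h4
      · exact h3.2 h4
      · exact h3.2 (h1 h4)
    · rwa [dif_neg h1, dif_neg h2] at h)
  refine ⟨g, fun a ha => ?_, fun a ha => ?_⟩
  · rw [hg a (mem_union_left _ ha), dif_neg]
    rw [mem_sdiff, not_and, not_not]
    exact fun _ => ha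
  · rw [hg a (mem_union_right _ ha)]
    split_ifs with h
    · exact (mem_sdiff.1 (e ⟨a, h⟩).2).1
    · rw [mem_sdiff, not_and, not_not] at h
      exact hBA (h ha)

end Ext

variable {α : Type} [Fintype α] [DecidableEq α] {W : Type} [Fintype W] [DecidableEq W]
  [MulAction (Perm α) W]

/-- the action on functions -/
def ac (g : Perm α) : (W → ZMod 2) →+ (W → ZMod 2) where
  toFun x := fun w => x (g⁻¹ • w)
  map_zero' := rfl
  map_add' _ _ := rfl

theorem ac_apply (g : Perm α) (x : W → ZMod 2) (w : W) : ac g x w = x (g⁻¹ • w) := rfl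

theorem ac_mul (g h : Perm α) (x : W → ZMod 2) : ac (g * h) x = ac g (ac h x) := by
  funext w
  rw [ac_apply, ac_apply, ac_apply, mul_inv_rev, mul_smul]

theorem ac_one (x : W → ZMod 2) : ac (1 : Perm α) x = x := by
  funext w
  rw [ac_apply, inv_one, one_smul]

theorem ac_single (g : Perm α) (w : W) : ac g (Pi.single w 1) = Pi.single (g • w) 1 := by
  funext v
  rw [ac_apply]
  by_cases h : v = g • w
  · subst h
    rw [inv_smul_smul, Pi.single_eq_same, Pi.single_eq_same]
  · rw [Pi.single_eq_of_ne h, Pi.single_eq_of_ne]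
    intro h1
    apply h
    rw [← h1, smul_inv_smul]

theorem bl_ac (g : Perm α) (S x : W → ZMod 2) : bl (ac g S) (ac g x) = bl S x := by
  unfold bl
  refine Fintype.sum_equiv (MulAction.toPerm g⁻¹) _ _ fun w => ?_
  rfl

/-- `D` supports the point `w` -/
def SpW (D : Finset α) (w : W) : Prop := ∀ g : Perm α, (∀ a ∈ D, g a = a) → g • w = w

/-- `B` supports the function `S` -/
def SpF (B : Finset α) (S : W → ZMod 2) : Prop :=
  ∀ g : Perm α, (∀ a ∈ B, g a = a) → ∀ w, S (g • w) = S w

theorem SpW.agree {D : Finset α} {w : W} (h : SpW D w) {g g' : Perm α}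
    (hg : ∀ a ∈ D, g a = g' a) : g • w = g' • w := by
  have h1 : (g'⁻¹ * g) • w = w := by
    apply h
    intro a ha
    rw [Perm.mul_apply, hg a ha]
    exact g'.symm_apply_apply a
  rw [mul_smul, inv_smul_eq_iff] at h1
  exact h1

theorem SpW.image {D : Finset α} {w : W} (h : SpW D w) (g : Perm α) :
    SpW (D.image g) (g • w) := by
  intro k hk
  have h1 : (g⁻¹ * (k * g)) • w = w := by
    apply h
    intro a ha
    rw [Perm.mul_apply, Perm.mul_apply, hk _ (mem_image_of_mem _ ha)]
    exact g.symm_apply_apply a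
  rw [mul_smul, inv_smul_eq_iff, mul_smul] at h1
  exact h1

/-- the points supported by at most `k` elements of `A` -/
def Loc (k : ℕ) (A : Finset α) (w : W) : Prop := ∃ D ⊆ A, D.card ≤ k ∧ SpW D w

theorem Loc.smul {k : ℕ} {A A' : Finset α} {w : W} (h : Loc k A w) (g : Perm α)
    (hg : ∀ a ∈ A, g a ∈ A') : Loc k A' (g • w) := by
  obtain ⟨D, hD, hk, hs⟩ := h
  refine ⟨D.image g, ?_, card_image_le.trans hk, hs.image g⟩
  intro x hx
  obtain ⟨a, ha, rfl⟩ := mem_image.1 hx
  exact hg a (hD ha)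

theorem Loc.agree {k : ℕ} {A : Finset α} {w : W} (h : Loc k A w) {g g' : Perm α}
    (hg : ∀ a ∈ A, g a = g' a) : g • w = g' • w := by
  obtain ⟨D, hD, _, hs⟩ := h
  exact hs.agree fun a ha => hg a (hD ha)

/-- moving a point into `A` -/
theorem Loc.move {k : ℕ} (A B : Finset α) (hBA : B ⊆ A) (hc : B.card + k ≤ A.card) {w : W}
    (h : Loc k (univ : Finset α) w) : ∃ g : Perm α, (∀ a ∈ B, g a = a) ∧ Loc k A (g • w) := by
  obtain ⟨D, _, hk, hs⟩ := h
  obtain ⟨g, hg1, hg2⟩ := LR.move D A B hBA (by omega)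
  refine ⟨g, hg1, D.image g, ?_, card_image_le.trans hk, hs.image g⟩
  intro x hx
  obtain ⟨a, ha, rfl⟩ := mem_image.1 hx
  exact hg2 a ha

/-- two points of the same orbit away from a support of `S` -/
theorem two_points {k b : ℕ} {B : Finset α} {S : W → ZMod 2} (hS : SpF B S) (hB : B.card ≤ b)
    (hn : b + 2 * k ≤ Fintype.card α) {A : Finset α} (hA : Disjoint B A) {u v : W}
    (hu : Loc k A u) (hv : Loc k A v) (r : Perm α) (hr : v = r • u) : S u = S v := by
  obtain ⟨D, hD, hDk, hDs⟩ := hu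
  obtain ⟨D', hD', hDk', hDs'⟩ := hv
  have hdB : ∀ a ∈ D, a ∉ B := fun a ha h => (disjoint_left.1 hA) h (hD ha)
  have hdB' : ∀ a ∈ D', a ∉ B := fun a ha h => (disjoint_left.1 hA) h (hD' ha)
  obtain ⟨h, hh1, hh2⟩ := LR.move (D.image r) Bᶜ D' (by
    intro a ha
    rw [mem_compl]
    exact hdB' a ha) (by
    rw [card_compl]
    have := card_image_le (s := D) (f := r)
    omega)
  have hh3 : ∀ a ∈ D, h (r a) ∉ B := by
    intro a ha
    have := hh2 (r a) (mem_image_of_mem _ ha)
    rwa [mem_compl] at this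
  obtain ⟨r', hr'⟩ := ext_perm (B ∪ D) (fun a => if a ∈ B then a else h (r a)) (by
    intro a ha a' ha' he
    simp only at he
    have hc : ∀ c, c ∈ (↑(B ∪ D) : Set α) → c ∉ B → c ∈ D := by
      intro c hc hcB
      exact (mem_union.1 (mem_coe.1 hc)).resolve_left hcB
    by_cases h1 : a ∈ B <;> by_cases h2 : a' ∈ B
    · rwa [if_pos h1, if_pos h2] at he
    · rw [if_pos h1, if_neg h2] at he
      exact absurd (he ▸ h1) (hh3 a' (hc a' ha' h2))
    · rw [if_neg h1, if_pos h2] at he
      exact absurd (he ▸ h2) (hh3 a (hc a ha h1))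
    · rw [if_neg h1, if_neg h2] at he
      exact r.injective (h.injective he))
  have h1 : r' • u = (h * r) • u := by
    apply hDs.agree
    intro a ha
    rw [hr' a (mem_union_right _ ha), if_neg (hdB a ha), Perm.mul_apply]
  have h2 : (h * r) • u = v := by
    rw [mul_smul, ← hr]
    exact hDs' h hh1
  rw [← h2, ← h1]
  symm
  apply hS
  intro a ha
  rw [hr' a (mem_union_left _ ha), if_pos ha]

open Classical in
/-- the points supported by few elements of `A` -/
noncomputable def LA (k : ℕ) (A : Finset α) : Finset W := univ.filter fun w => Loc k A w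

theorem mem_LA {k : ℕ} {A : Finset α} {w : W} : w ∈ (LA k A : Finset W) ↔ Loc k A w := by
  simp [LA]

/-- functions supported by `A` -/
theorem ac_agree {k : ℕ} {A : Finset α} {x : W → ZMod 2} (hx : x ∈ cub (LA k A)) {g g' : Perm α}
    (hg : ∀ a ∈ A, g a = g' a) : ac g x = ac g' x := by
  rw [mem_cub] at hx
  funext w
  rw [ac_apply, ac_apply]
  by_cases h1 : Loc k A (g⁻¹ • w)
  · have h2 := h1.agree hg
    rw [smul_inv_smul] at h2
    have h3 : g'⁻¹ • w = g⁻¹ • w := by
      rw [inv_smul_eq_iff]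
      exact h2
    rw [h3]
  · by_cases h2 : Loc k A (g'⁻¹ • w)
    · have h3 := h2.agree hg
      rw [smul_inv_smul] at h3
      have h4 : g⁻¹ • w = g'⁻¹ • w := by
        rw [inv_smul_eq_iff]
        exact h3.symm
      rw [h4]
    · rw [hx _ (fun h => h1 (mem_LA.1 h)), hx _ (fun h => h2 (mem_LA.1 h))]

theorem bl_ac_of_fix {B : Finset α} {S : W → ZMod 2} (hS : SpF B S) {g : Perm α}
    (hg : ∀ a ∈ B, g a = a) (x : W → ZMod 2) : bl S (ac g x) = bl S x := by
  have h1 : ac g S = S := by
    funext w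
    rw [ac_apply]
    apply hS
    intro a ha
    rw [Perm.inv_eq_iff_eq, hg a ha]
  calc bl S (ac g x) = bl (ac g S) (ac g x) := by rw [h1]
    _ = bl S x := bl_ac g S x

end Pool.Agent.TH410.LR
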