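import Pool.Agent.TH410.LR.Inv
import Pool.Agent.H287R3.RA.Supp

set_option autoImplicit false
set_option linter.unusedSectionVars false

/-! Supports of the members of the Fourier support; several sorts. -/

namespace Pool.Agent.TH410.LR

open Finset Equiv

section One

variable {α : Type} [Fintype α] [DecidableEq α] {W : Type} [Fintype W] [DecidableEq W]
  [MulAction (Perm α) W]

theorem ft_ac (F : (W → ZMod 2) → ℝ) (hinv : ∀ (g : Perm α) x, F (ac g x) = F x) (g : Perm α)
    (S : W → ZMod 2) : ft F (ac g S) = ft F S := by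
  unfold ft
  let e : (W → ZMod 2) ≃ (W → ZMod 2) :=
    { toFun := ac g
      invFun := ac g⁻¹
      left_inv := fun x => by rw [← ac_mul, inv_mul_cancel, ac_one]
      right_inv := fun x => by rw [← ac_mul, mul_inv_cancel, ac_one] }
  refine (Fintype.sum_equiv e _ _ fun x => ?_).symm
  change F x * ch S x = F (ac g x) * ch (ac g S) (ac g x)
  rw [hinv]
  unfold ch
  rw [bl_ac]

/-- the action of the alternating group on the Fourier support -/
@[instance_reducible] def actS (F : (W → ZMod 2) → ℝ) (hinv : ∀ (g : Perm α) x, F (ac g x) = F x) :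
    MulAction (alternatingGroup α) {S : W → ZMod 2 // ft F S ≠ 0} where
  smul g S := ⟨ac (g : Perm α) S.1, by rw [ft_ac F hinv]; exact S.2⟩
  one_smul S := Subtype.ext (ac_one S.1)
  mul_smul g h S := Subtype.ext (ac_mul (g : Perm α) (h : Perm α) S.1)

theorem exists_sup {k s : ℕ} (F : (W → ZMod 2) → ℝ)
    (hinv : ∀ (g : Perm α) x, F (ac g x) = F x) (hk : ∀ w : W, Loc k (univ : Finset α) w)
    (hs : ∀ t : Finset (W → ZMod 2), (∀ S ∈ t, ft F S ≠ 0) → t.card ≤ s)
    (hn : 6 * Nat.log 2 s + 2 + k + 2 ≤ Fintype.card α) (S : W → ZMod 2) (hS : ft F S ≠ 0) :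
    ∃ B : Finset α, B.card ≤ 6 * Nat.log 2 s + 2 ∧ SpF B S := by
  classical
  let _ := actS F hinv
  obtain ⟨B, hB, hfix⟩ := H287R3.RA.exists_support (α := α)
    (V := {S : W → ZMod 2 // ft F S ≠ 0}) ⟨S, hS⟩
  have hcard : Fintype.card {S : W → ZMod 2 // ft F S ≠ 0} ≤ s := by
    rw [Fintype.card_subtype]
    apply hs
    intro S hS
    exact (mem_filter.1 hS).2
  have hBc : B.card ≤ 6 * Nat.log 2 s + 2 := by
    have := Nat.log_mono_right (b := 2) hcard
    omega
  refine ⟨B, hBc, ?_⟩
  have heven : ∀ g : Perm α, Perm.sign g = 1 → (∀ a ∈ B, g a = a) → ∀ w, S (g • w) = S w := by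
    intro g hg hgB w
    have h1 := hfix ⟨g, Perm.mem_alternatingGroup.2 hg⟩ hgB
    have h2 : ac g S = S := congrArg Subtype.val h1
    have h3 := congrFun h2 (g • w)
    rw [ac_apply, inv_smul_smul] at h3
    exact h3.symm
  intro g hg w
  by_cases hsg : Perm.sign g = 1
  · exact heven g hsg hg w
  · have hs' : Perm.sign g = -1 := (Int.units_eq_one_or _).resolve_left hsg
    obtain ⟨D, _, hDk, hDs⟩ := hk w
    have hc : 1 < (B ∪ D)ᶜ.card := by
      rw [card_compl]
      have := card_union_le B D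
      omega
    rw [Finset.one_lt_card] at hc
    obtain ⟨x, hx, y, hy, hxy⟩ := hc
    rw [mem_compl, mem_union, not_or] at hx hy
    have h1 : swap x y • w = w := by
      apply hDs
      intro a ha
      apply swap_apply_of_ne_of_ne
      · rintro rfl; exact hx.2 ha
      · rintro rfl; exact hy.2 ha
    have h2 := heven (g * swap x y) (by
      rw [map_mul, hs', Perm.sign_swap hxy]
      decide) (by
      intro a ha
      rw [Perm.mul_apply, swap_apply_of_ne_of_ne, hg a ha]
      · rintro rfl; exact hx.1 ha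
      · rintro rfl; exact hy.1 ha) w
    rw [mul_smul, h1] at h2
    exact h2

/-- the bound for the number of points -/
def n0 (k s : ℕ) : ℕ :=
  (2 * (6 * Nat.log 2 s + 2) + k + 1) * (4 * (6 * Nat.log 2 s + 2) + 3)

theorem one_sort {k s : ℕ} (F : (W → ZMod 2) → ℝ) (h01 : ∀ x, F x = 0 ∨ F x = 1)
    (hinv : ∀ (g : Perm α) x, F (ac g x) = F x) (hk : ∀ w : W, Loc k (univ : Finset α) w)
    (hs : ∀ t : Finset (W → ZMod 2), (∀ S ∈ t, ft F S ≠ 0) → t.card ≤ s)
    (hn : n0 k s ≤ Fintype.card α) :
    ∀ S, ft F S ≠ 0 → ∀ (g : Perm α) (w : W), S (g • w) = S w := by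
  have h1 : 6 * Nat.log 2 s + 2 + k + 2 ≤ Fintype.card α := by
    refine le_trans ?_ hn
    unfold n0
    nlinarith [Nat.zero_le (Nat.log 2 s), Nat.zero_le k]
  exact invariant_support F h01 hinv hk (exists_sup F hinv hk hs h1) hn

end One

section Many

variable {I : Type} [Fintype I] [DecidableEq I] {n : I → ℕ} {W : Type} [Fintype W]
  [DecidableEq W] [MulAction (∀ i, Perm (Fin (n i))) W]

/-- invariance under the large sorts -/
theorem many_sorts {k s : ℕ} (D : W → Finset (Σ i, Fin (n i))) (hD : ∀ w, (D w).card ≤ k)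
    (hfix : ∀ (w : W) (g : ∀ i, Perm (Fin (n i))), (∀ p ∈ D w, g p.1 p.2 = p.2) → g • w = w)
    (F : (W → ZMod 2) → ℝ) (h01 : ∀ x, F x = 0 ∨ F x = 1)
    (hinv : ∀ (g : ∀ i, Perm (Fin (n i))) (x : W → ZMod 2), F (fun w => x (g • w)) = F x)
    (hs : ∀ t : Finset (W → ZMod 2), (∀ S ∈ t, ft F S ≠ 0) → t.card ≤ s)
    (S : W → ZMod 2) (hS : ft F S ≠ 0) (g : ∀ i, Perm (Fin (n i)))
    (hg : ∀ i, n i < n0 k s → g i = 1) (w : W) : S (g • w) = S w := by
  classical
  let H : Subgroup (∀ i, Perm (Fin (n i))) :=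
    { carrier := {g | ∀ w, S (g • w) = S w}
      one_mem' := fun w => by rw [one_smul]
      mul_mem' := by
        intro a b ha hb w
        rw [mul_smul, ha, hb]
      inv_mem' := by
        intro a ha w
        rw [← ha (a⁻¹ • w), smul_inv_smul] }
  suffices h : g ∈ H from h w
  apply Subgroup.pi_mem_of_mulSingle_mem
  intro i w
  by_cases hi : n i < n0 k s
  · rw [hg i hi, Pi.mulSingle_one, one_smul]
  · letI : MulAction (Perm (Fin (n i))) W :=
      MulAction.compHom W (MonoidHom.mulSingle (fun i => Perm (Fin (n i))) i)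
    have h1 : ∀ (π : Perm (Fin (n i))) (w : W),
        π • w = (Pi.mulSingle i π : ∀ i, Perm (Fin (n i))) • w := fun _ _ => rfl
    have h2 := one_sort (α := Fin (n i)) (k := k) (s := s) F h01 ?_ ?_ hs
      (by rw [Fintype.card_fin]; omega) S hS (g i) w
    · rw [h1] at h2
      exact h2
    · intro π x
      exact hinv (Pi.mulSingle i π⁻¹) x
    · intro w
      refine ⟨univ.filter (fun a => (⟨i, a⟩ : Σ i, Fin (n i)) ∈ D w), subset_univ _, ?_, ?_⟩
      · refine le_trans ?_ (hD w)
        apply Finset.card_le_card_of_injOn (fun a => (⟨i, a⟩ : Σ i, Fin (n i)))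
        · intro a ha
          exact (mem_filter.1 ha).2
        · intro a _ b _ hab
          simpa using hab
      · intro π hπ
        rw [h1]
        apply hfix
        rintro ⟨j, a⟩ hp
        by_cases hj : j = i
        · subst hj
          simp only [Pi.mulSingle_eq_same]
          exact hπ a (mem_filter.2 ⟨mem_univ _, hp⟩)
        · simp only [Pi.mulSingle_eq_of_ne hj, Perm.one_apply]

end Many

end Pool.Agent.TH410.LR
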