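import Pool.Agent.TH410.LR.Asm

set_option autoImplicit false
set_option linter.unusedSectionVars false

/-! Classes of points under the large sorts, the protocol, the bound. -/

namespace Pool.Agent.TH410.LR

open Finset Equiv

section Many

variable {I : Type} [Fintype I] [DecidableEq I] {n : I → ℕ} {W : Type} [Fintype W]
  [DecidableEq W] [MulAction (∀ i, Perm (Fin (n i))) W]

theorem exists_classes {k m N : ℕ} (D : W → Finset (Σ i, Fin (n i))) (hD : ∀ w, (D w).card ≤ k)
    (hfix : ∀ (w : W) (g : ∀ i, Perm (Fin (n i))), (∀ p ∈ D w, g p.1 p.2 = p.2) → g • w = w)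
    (hm : Nat.card (MulAction.orbitRel.Quotient (∀ i, Perm (Fin (n i))) W) ≤ m) (hN : 0 < N) :
    ∃ (M : ℕ) (κ : W → Fin M), M ≤ m * N ^ k ∧ ∀ w w', κ w = κ w' →
      ∃ (g g' : ∀ i, Perm (Fin (n i))) (u : W), (∀ i, n i < N → g i = 1) ∧
        (∀ i, n i < N → g' i = 1) ∧ w = g • u ∧ w' = g' • u := by
  classical
  set Qt := MulAction.orbitRel.Quotient (∀ i, Perm (Fin (n i))) W with hQt
  have hfinQ : Finite Qt := Quotient.finite _
  have : Fintype Qt := Fintype.ofFinite _
  let q : W → Qt := fun w => Quotient.mk _ w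
  have hg : ∀ w : W, ∃ g : ∀ i, Perm (Fin (n i)), g • (q w).out = w := by
    intro w
    have h1 : (MulAction.orbitRel (∀ i, Perm (Fin (n i))) W).r (q w).out w := Quotient.mk_out w
    have h2 : (q w).out ∈ MulAction.orbit (∀ i, Perm (Fin (n i))) w := h1
    obtain ⟨g, hg⟩ := h2
    refine ⟨g⁻¹, ?_⟩
    rw [inv_smul_eq_iff]
    exact hg.symm
  choose g hg using hg
  let C : Type := Σ t : Qt, ({p // p ∈ D t.out} → Fin N)
  have hfinC : Finite C := inferInstanceAs (Finite (Σ t : Qt, ({p // p ∈ D t.out} → Fin N)))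
  let κ₀ : W → C := fun w => ⟨q w, fun p => if h : n p.1.1 < N then
    ⟨(g w p.1.1 p.1.2).1, lt_trans (g w p.1.1 p.1.2).2 h⟩ else ⟨0, hN⟩⟩
  have hcard : Nat.card C ≤ m * N ^ k := by
    have h1 : Nat.card C = ∑ t : Qt, N ^ (D t.out).card := by
      have h2 : Nat.card C = Nat.card (Σ t : Qt, ({p // p ∈ D t.out} → Fin N)) := rfl
      rw [h2, Nat.card_sigma]
      refine sum_congr rfl fun t _ => ?_
      rw [Nat.card_fun, Nat.card_eq_fintype_card, Fintype.card_fin, Nat.card_eq_fintype_card,
        Fintype.card_coe]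
    rw [h1]
    calc ∑ t : Qt, N ^ (D t.out).card ≤ ∑ _t : Qt, N ^ k :=
          sum_le_sum fun t _ => Nat.pow_le_pow_right hN (hD _)
      _ = Fintype.card Qt * N ^ k := by rw [sum_const, card_univ, smul_eq_mul]
      _ ≤ m * N ^ k := by
          apply Nat.mul_le_mul_right
          rw [← Nat.card_eq_fintype_card]
          exact hm
  refine ⟨Nat.card C, fun w => Finite.equivFin C (κ₀ w), hcard, fun w w' hww => ?_⟩
  have h1 : κ₀ w = κ₀ w' := (Finite.equivFin C).injective hww
  -- projection to a simple type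
  let pr : C → Qt × ((Σ i, Fin (n i)) → ℕ) := fun c =>
    (c.1, fun p => if h : p ∈ D c.1.out then (c.2 ⟨p, h⟩ : ℕ) else 0)
  have h2 := congrArg pr h1
  have h3 : q w = q w' := congrArg Prod.fst h2
  have h4 : ∀ p, (pr (κ₀ w)).2 p = (pr (κ₀ w')).2 p := fun p => by rw [h2]
  set u := (q w).out with hu
  have hu' : (q w').out = u := by rw [hu, h3]
  have hgw : g w • u = w := hg w
  have hgw' : g w' • u = w' := by
    have := hg w'
    rwa [hu'] at this
  have hagree : ∀ p ∈ D u, n p.1 < N → g w p.1 p.2 = g w' p.1 p.2 := by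
    intro p hp hpN
    have h5 := h4 p
    have hp' : p ∈ D (q w').out := by rw [hu']; exact hp
    simp only [pr, κ₀] at h5
    rw [dif_pos hp, dif_pos hp', dif_pos hpN, dif_pos hpN] at h5
    exact Fin.ext h5
  let gS : (∀ i, Perm (Fin (n i))) → (∀ i, Perm (Fin (n i))) := fun a i => if n i < N then a i else 1
  let gL : (∀ i, Perm (Fin (n i))) → (∀ i, Perm (Fin (n i))) := fun a i => if n i < N then 1 else a i
  have hmul : ∀ a, gL a * gS a = a := by
    intro a
    funext i
    simp only [Pi.mul_apply, gL, gS]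
    split_ifs
    · rw [one_mul]
    · rw [mul_one]
  have hS : gS (g w) • u = gS (g w') • u := by
    have h5 : ((gS (g w'))⁻¹ * gS (g w)) • u = u := by
      apply hfix
      intro p hp
      rw [Pi.mul_apply, Pi.inv_apply, Perm.mul_apply]
      simp only [gS]
      split_ifs with h
      · rw [hagree p hp h]
        exact (g w' p.1).symm_apply_apply p.2
      · rfl
    rw [mul_smul, inv_smul_eq_iff] at h5
    exact h5
  refine ⟨gL (g w), gL (g w'), gS (g w) • u, ?_, ?_, ?_, ?_⟩
  · intro i hi
    simp only [gL, if_pos hi]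
  · intro i hi
    simp only [gL, if_pos hi]
  · rw [← mul_smul, hmul, hgw]
  · rw [hS, ← mul_smul, hmul, hgw']

/-- the values depend on few parities -/
theorem few_parities {k m s : ℕ} (D : W → Finset (Σ i, Fin (n i))) (hD : ∀ w, (D w).card ≤ k)
    (hfix : ∀ (w : W) (g : ∀ i, Perm (Fin (n i))), (∀ p ∈ D w, g p.1 p.2 = p.2) → g • w = w)
    (hm : Nat.card (MulAction.orbitRel.Quotient (∀ i, Perm (Fin (n i))) W) ≤ m)
    (F : (W → ZMod 2) → ℝ) (h01 : ∀ x, F x = 0 ∨ F x = 1)
    (hinv : ∀ (g : ∀ i, Perm (Fin (n i))) (x : W → ZMod 2), F (fun w => x (g • w)) = F x)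
    (hs : ∀ t : Finset (W → ZMod 2), (∀ S ∈ t, ft F S ≠ 0) → t.card ≤ s) :
    ∃ (M : ℕ) (κ : W → Fin M), M ≤ m * (n0 k s) ^ k ∧ ∀ x x' : W → ZMod 2,
      (∀ c, ∑ w ∈ univ.filter (fun w => κ w = c), x w =
        ∑ w ∈ univ.filter (fun w => κ w = c), x' w) → F x = F x' := by
  classical
  have hN : 0 < n0 k s := by
    unfold n0
    positivity
  obtain ⟨M, κ, hM, hκ⟩ := exists_classes D hD hfix hm hN
  refine ⟨M, κ, hM, fun x x' hxx => ?_⟩
  have hSc : ∀ S, ft F S ≠ 0 → ∀ w w', κ w = κ w' → S w = S w' := by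
    intro S hS w w' hww
    obtain ⟨g, g', u, hg, hg', rfl, rfl⟩ := hκ w w' hww
    rw [many_sorts D hD hfix F h01 hinv hs S hS g hg u,
      many_sorts D hD hfix F h01 hinv hs S hS g' hg' u]
  have hbl : ∀ S, ft F S ≠ 0 → bl S x = bl S x' := by
    intro S hS
    unfold bl
    rw [← Finset.sum_fiberwise univ κ (fun w => S w * x w),
      ← Finset.sum_fiberwise univ κ (fun w => S w * x' w)]
    refine sum_congr rfl fun c _ => ?_
    by_cases hc : ∃ w, κ w = c
    · obtain ⟨w₀, hw₀⟩ := hc
      have h1 : ∀ y : W → ZMod 2, ∑ w ∈ univ.filter (fun w => κ w = c), S w * y w =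
          S w₀ * ∑ w ∈ univ.filter (fun w => κ w = c), y w := by
        intro y
        rw [mul_sum]
        refine sum_congr rfl fun w hw => ?_
        rw [hSc S hS w w₀ ((mem_filter.1 hw).2.trans hw₀.symm)]
      rw [h1, h1, hxx c]
    · have h1 : univ.filter (fun w => κ w = c) = ∅ := by
        rw [filter_eq_empty_iff]
        intro w _ hw
        exact hc ⟨w, hw⟩
      rw [h1, sum_empty, sum_empty]
  have hNc : (Fintype.card (W → ZMod 2) : ℝ) ≠ 0 := by
    have := Fintype.card_pos (α := W → ZMod 2)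
    positivity
  have h1 := inversion F x
  have h2 := inversion F x'
  have h3 : ∑ S, ft F S * ch S x = ∑ S, ft F S * ch S x' := by
    refine sum_congr rfl fun S _ => ?_
    by_cases hS : ft F S = 0
    · rw [hS, zero_mul, zero_mul]
    · unfold ch
      rw [hbl S hS]
  rw [h1, h2] at h3
  exact mul_left_cancel₀ hNc h3

end Many

/-- one-way protocols -/
theorem oneway {X Y : Type} (F : X → Y → Bool) (n : ℕ) (enc : Y → (Fin n → Bool))
    (henc : ∀ y y', enc y = enc y' → ∀ x, F x y = F x y') :
    ∃ (owner : List Bool → Bool) (a : List Bool → X → Bool) (b : List Bool → Y → Bool)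
      (out : List Bool → Bool), ∀ x y, out (Nat.iterate
        (fun t : List Bool => t ++ [if owner t then a t x else b t y]) (n + 1) []) = F x y := by
  classical
  let g : Y → ℕ → Bool := fun y i => if h : i < n then enc y ⟨i, h⟩ else false
  have hg : ∀ y y', List.map (g y) (List.range n) = List.map (g y') (List.range n) →
      enc y = enc y' := by
    intro y y' h
    funext i
    have h1 := List.map_inj_left.1 h i (List.mem_range.2 i.2)
    simpa [g, i.2] using h1
  refine ⟨fun t => decide (t.length = n),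
    fun t x => if h : ∃ y, List.map (g y) (List.range n) = t then F x h.choose else false,
    fun t y => g y t.length, fun t => t.getLastD false, fun x y => ?_⟩
  set stp := (fun t : List Bool => t ++ [if decide (t.length = n) = true then
    (if h : ∃ y, List.map (g y) (List.range n) = t then F x h.choose else false)
      else g y t.length]) with hstp
  have key : ∀ k ≤ n, stp^[k] [] = List.map (g y) (List.range k) := by
    intro k
    induction k with
    | zero => intro _; rfl
    | succ k ih =>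
      intro hk
      rw [Function.iterate_succ_apply', ih (by omega), hstp]
      have h1 : (List.map (g y) (List.range k)).length = k := by simp
      simp only [h1]
      rw [if_neg (by simp; omega), List.range_succ, List.map_append]
      rfl
  rw [Function.iterate_succ_apply', key n le_rfl, hstp]
  have h1 : (List.map (g y) (List.range n)).length = n := by simp
  simp only [h1, decide_true, if_true]
  have hex : ∃ y', List.map (g y') (List.range n) = List.map (g y) (List.range n) := ⟨y, rfl⟩
  rw [dif_pos hex]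
  have h2 := henc _ _ (hg _ _ hex.choose_spec) x
  simp only [List.getLastD_concat]
  exact h2

theorem n0_le (k r : ℕ) : ((n0 k r : ℕ) : ℝ) ≤ 24 * (k + 12) * (Real.logb 2 r + 1) ^ 2 := by
  have hL : ((Nat.log 2 r : ℕ) : ℝ) ≤ Real.logb 2 (r : ℝ) := Real.natLog_le_logb r 2
  have hL0 : (0 : ℝ) ≤ ((Nat.log 2 r : ℕ) : ℝ) := by positivity
  have hk0 : (0 : ℝ) ≤ (k : ℝ) := by positivity
  set L := Real.logb 2 (r : ℝ)
  set l : ℝ := ((Nat.log 2 r : ℕ) : ℝ)
  have h1 : ((n0 k r : ℕ) : ℝ) = (12 * l + (k + 5)) * (24 * l + 11) := by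
    unfold n0
    push_cast
    ring
  rw [h1]
  have h2 : 12 * l + ((k : ℝ) + 5) ≤ (k + 12) * (L + 1) := by nlinarith
  have h3 : 24 * l + 11 ≤ 24 * (L + 1) := by linarith
  calc (12 * l + ((k : ℝ) + 5)) * (24 * l + 11)
      ≤ ((k + 12) * (L + 1)) * (24 * (L + 1)) := by
        apply mul_le_mul h2 h3 (by positivity)
        have : 0 ≤ L := hL0.trans hL
        positivity
    _ = 24 * (k + 12) * (L + 1) ^ 2 := by ring

end Pool.Agent.TH410.LR
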