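import Pool.Agent.TH410.LR.Cls

set_option autoImplicit false
set_option linter.unusedSectionVars false

/-! The final statements. -/

namespace Pool.Agent.TH410.LR

open Finset Equiv

/-- `F` has a deterministic two-party protocol with at most `B` bits. -/
def HasProtocol {X Y : Type} (F : X → Y → Bool) (B : ℝ) : Prop :=
  ∃ (c : ℕ) (owner : List Bool → Bool) (a : List Bool → X → Bool) (b : List Bool → Y → Bool)
    (out : List Bool → Bool),
    (∀ x y, out (Nat.iterate
      (fun t : List Bool => t ++ [if owner t then a t x else b t y]) c []) = F x y) ∧ (c : ℝ) ≤ B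

/-- The binary logarithm of the real rank of the matrix of `F`. -/
noncomputable def logRank {X Y : Type} [Fintype X] [Fintype Y] (F : X → Y → Bool) : ℝ :=
  Real.logb 2 ((Matrix.of fun (x : X) (y : Y) => if F x y then (1 : ℝ) else 0).rank : ℝ)

theorem logRank_nonneg {X Y : Type} [Fintype X] [Fintype Y] (F : X → Y → Bool) :
    0 ≤ logRank F := by
  unfold logRank
  rcases Nat.eq_zero_or_pos (Matrix.of fun (x : X) (y : Y) => if F x y then (1 : ℝ) else 0).rank
    with h | h
  · rw [h]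
    simp
  · exact Real.logb_nonneg (by norm_num) (by exact_mod_cast h)

section Gen

variable {W : Type} [Fintype W] [DecidableEq W]

/-- the real function of a Boolean function -/
def rl (f : (W → ZMod 2) → Bool) (x : W → ZMod 2) : ℝ := if f x then 1 else 0

theorem rl01 (f : (W → ZMod 2) → Bool) (x : W → ZMod 2) : rl f x = 0 ∨ rl f x = 1 := by
  unfold rl
  split_ifs
  · exact Or.inr rfl
  · exact Or.inl rfl

theorem rl_inj {f : (W → ZMod 2) → Bool} {x y : W → ZMod 2} (h : rl f x = rl f y) : f x = f y := by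
  unfold rl at h
  rcases hx : f x with _ | _ <;> rcases hy : f y with _ | _ <;> rw [hx, hy] at h <;> simp at h ⊢

theorem supp_le (f : (W → ZMod 2) → Bool) (t : Finset (W → ZMod 2))
    (ht : ∀ S ∈ t, ft (rl f) S ≠ 0) :
    t.card ≤ (Matrix.of fun x y : W → ZMod 2 => if f (x + y) then (1 : ℝ) else 0).rank :=
  card_le_rank (rl f) t ht

variable {I : Type} [Fintype I] [DecidableEq I] {n : I → ℕ}
  [MulAction (∀ i, Perm (Fin (n i))) W]

theorem final {k m : ℕ} (D : W → Finset (Σ i, Fin (n i))) (hD : ∀ w, (D w).card ≤ k)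
    (hfix : ∀ (w : W) (g : ∀ i, Perm (Fin (n i))), (∀ p ∈ D w, g p.1 p.2 = p.2) → g • w = w)
    (hm : Nat.card (MulAction.orbitRel.Quotient (∀ i, Perm (Fin (n i))) W) ≤ m)
    (f : (W → ZMod 2) → Bool)
    (hf : ∀ (g : ∀ i, Perm (Fin (n i))) (x : W → ZMod 2), f (fun w => x (g • w)) = f x) :
    HasProtocol (fun x y : W → ZMod 2 => f (x + y))
      (m * (24 * (k + 12) * (logRank (fun x y : W → ZMod 2 => f (x + y)) + 1) ^ 2) ^ k + 1) := by
  classical
  obtain ⟨r, hr⟩ : ∃ r, r = (Matrix.of fun x y : W → ZMod 2 =>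
    if f (x + y) then (1 : ℝ) else 0).rank := ⟨_, rfl⟩
  have hsup : ∀ t : Finset (W → ZMod 2), (∀ S ∈ t, ft (rl f) S ≠ 0) → t.card ≤ r := by
    intro t ht
    rw [hr]
    exact supp_le f t ht
  obtain ⟨M, κ, hM, hκ⟩ := few_parities (s := r) D hD hfix hm (rl f) (rl01 f)
    (fun g x => by unfold rl; rw [hf g x]) hsup
  obtain ⟨owner, a, b, out, h⟩ := oneway (fun x y : W → ZMod 2 => f (x + y)) M
    (fun y c => decide (∑ w ∈ univ.filter (fun w => κ w = c), y w = 1)) (by
      intro y y' hyy x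
      apply rl_inj
      apply hκ
      intro c
      simp only [Pi.add_apply, sum_add_distrib]
      congr 1
      have h1 := congrFun hyy c
      rw [decide_eq_decide] at h1
      rcases zmod2_cases (∑ w ∈ univ.filter (fun w => κ w = c), y w) with h2 | h2 <;>
        rcases zmod2_cases (∑ w ∈ univ.filter (fun w => κ w = c), y' w) with h3 | h3
      · rw [h2, h3]
      · rw [h2, h3] at h1
        exact absurd (h1.2 rfl) (by decide)
      · rw [h2, h3] at h1
        exact absurd (h1.1 rfl) (by decide)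
      · rw [h2, h3])
  refine ⟨M + 1, owner, a, b, out, h, ?_⟩
  have h1 : ((M : ℕ) : ℝ) ≤ ((m * (n0 k r) ^ k : ℕ) : ℝ) := by exact_mod_cast hM
  have h2 := n0_le k r
  have h3 : ((n0 k r : ℕ) : ℝ) ^ k ≤ (24 * (k + 12) * (Real.logb 2 r + 1) ^ 2) ^ k :=
    pow_le_pow_left₀ (by positivity) h2 k
  push_cast at h1 ⊢
  have h4 : (m : ℝ) * (n0 k r : ℝ) ^ k ≤ m * (24 * (k + 12) * (Real.logb 2 r + 1) ^ 2) ^ k :=
    mul_le_mul_of_nonneg_left h3 (by positivity)
  have h5 : logRank (fun x y : W → ZMod 2 => f (x + y)) = Real.logb 2 r := by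
    rw [hr]
    rfl
  rw [h5]
  linarith

end Gen

section Graphs

variable (n : ℕ)

/-- the pairs -/
abbrev Pr : Type := {e : Sym2 (Fin n) // ¬ e.IsDiag}

/-- the action on pairs -/
instance actP : MulAction (∀ _ : Unit, Perm (Fin n)) (Pr n) where
  smul g e := ⟨Sym2.map (g ()) e.1, by
    rw [Sym2.isDiag_map (g ()).injective]
    exact e.2⟩
  one_smul e := Subtype.ext (by
    change Sym2.map (id : Fin n → Fin n) e.1 = e.1
    rw [Sym2.map_id, id])
  mul_smul g h e := Subtype.ext (by
    change Sym2.map ((g () : Fin n → Fin n) ∘ (h ())) e.1 = Sym2.map (g ()) (Sym2.map (h ()) e.1)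
    rw [Sym2.map_map])

theorem smul_val (g : ∀ _ : Unit, Perm (Fin n)) (e : Pr n) : (g • e).1 = Sym2.map (g ()) e.1 := rfl

open Classical in
/-- graphs as functions -/
noncomputable def gv : SimpleGraph (Fin n) ≃ (Pr n → ZMod 2) where
  toFun G := fun e => if e.1 ∈ G.edgeSet then 1 else 0
  invFun x := SimpleGraph.fromEdgeSet {e | ∃ h : ¬ e.IsDiag, x ⟨e, h⟩ = 1}
  left_inv G := by
    ext a b
    rw [SimpleGraph.fromEdgeSet_adj]
    constructor
    · rintro ⟨⟨h, h1⟩, _⟩
      by_contra h2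
      simp only at h1
      rw [if_neg (by simpa using h2)] at h1
      exact absurd h1 (by decide)
    · intro h
      refine ⟨⟨fun hd => h.ne (Sym2.mk_isDiag_iff.1 hd), ?_⟩, h.ne⟩
      simp only
      rw [if_pos (by simpa using h)]
  right_inv x := by
    funext e
    obtain ⟨e, he⟩ := e
    simp only [SimpleGraph.edgeSet_fromEdgeSet, Set.mem_sdiff, Set.mem_ofPred_eq]
    rcases zmod2_cases (x ⟨e, he⟩) with h | h
    · rw [if_neg, h]
      rintro ⟨⟨_, h1⟩, _⟩
      rw [h] at h1
      exact absurd h1 (by decide)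
    · rw [if_pos, h]
      exact ⟨⟨he, h⟩, he⟩

theorem gv_symmDiff (G H : SimpleGraph (Fin n)) :
    gv n (symmDiff G H) = gv n G + gv n H := by
  classical
  funext e
  obtain ⟨e, he⟩ := e
  induction e using Sym2.ind with
  | _ a b =>
  simp only [gv, Equiv.coe_fn_mk, Pi.add_apply, SimpleGraph.mem_edgeSet]
  have h1 : (symmDiff G H).Adj a b ↔ (G.Adj a b ∧ ¬ H.Adj a b) ∨ (H.Adj a b ∧ ¬ G.Adj a b) := by
    rw [symmDiff_def, SimpleGraph.sup_adj, SimpleGraph.sdiff_adj, SimpleGraph.sdiff_adj]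
  rw [h1]
  by_cases h2 : G.Adj a b <;> by_cases h3 : H.Adj a b <;> simp [h2, h3]
  exact (CharTwo.add_self_eq_zero (1 : ZMod 2)).symm

end Graphs

end Pool.Agent.TH410.LR
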