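import Mathlib

set_option autoImplicit false
set_option linter.unusedSectionVars false

/-! Fourier analysis on the functions from a finite set to the field of two elements. -/

namespace Pool.Agent.TH410.LR

open Finset

variable {W : Type} [Fintype W] [DecidableEq W]

/-- the sign of an element of the field of two elements -/
def sg (a : ZMod 2) : ℝ := if a = 0 then 1 else -1

theorem zmod2_cases (a : ZMod 2) : a = 0 ∨ a = 1 := by
  revert a
  decide

theorem sg_add (a b : ZMod 2) : sg (a + b) = sg a * sg b := by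
  rcases zmod2_cases a with rfl | rfl <;> rcases zmod2_cases b with rfl | rfl
  · simp [sg]
  · simp [sg]
  · simp [sg]
  · have : (1 + 1 : ZMod 2) = 0 := by decide
    simp [sg, this]

theorem sg_zero : sg 0 = 1 := by simp [sg]

theorem sg_one : sg 1 = -1 := by simp [sg]

theorem sg_mul_self (a : ZMod 2) : sg a * sg a = 1 := by
  rcases zmod2_cases a with rfl | rfl <;> simp [sg]

theorem sg_ne (a : ZMod 2) : sg a ≠ 0 := by
  rcases zmod2_cases a with rfl | rfl <;> simp [sg]

/-- the bilinear form -/
def bl (S x : W → ZMod 2) : ZMod 2 := ∑ w, S w * x w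

theorem bl_add_right (S x y : W → ZMod 2) : bl S (x + y) = bl S x + bl S y := by
  unfold bl
  rw [← sum_add_distrib]
  exact sum_congr rfl fun w _ => by rw [Pi.add_apply, mul_add]

theorem bl_comm (S x : W → ZMod 2) : bl S x = bl x S := by
  unfold bl
  exact sum_congr rfl fun w _ => mul_comm _ _

theorem bl_add_left (S T x : W → ZMod 2) : bl (S + T) x = bl S x + bl T x := by
  rw [bl_comm, bl_add_right, bl_comm x, bl_comm x]

theorem bl_zero_right (S : W → ZMod 2) : bl S 0 = 0 := by
  unfold bl
  simp

theorem bl_sum_right {ι : Type} (s : Finset ι) (S : W → ZMod 2) (x : ι → W → ZMod 2) :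
    bl S (∑ i ∈ s, x i) = ∑ i ∈ s, bl S (x i) := by
  classical
  induction s using Finset.induction_on with
  | empty => simp [bl_zero_right]
  | insert i s hi ih => rw [sum_insert hi, sum_insert hi, bl_add_right, ih]

theorem bl_single (S : W → ZMod 2) (w : W) : bl S (Pi.single w 1) = S w := by
  unfold bl
  rw [Finset.sum_eq_single w]
  · simp
  · intro b _ hb
    rw [Pi.single_eq_of_ne hb, mul_zero]
  · intro h
    exact absurd (mem_univ _) h

/-- the characters -/
def ch (S x : W → ZMod 2) : ℝ := sg (bl S x)

theorem ch_comm (S x : W → ZMod 2) : ch S x = ch x S := by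
  unfold ch
  rw [bl_comm]

theorem ch_add (S x y : W → ZMod 2) : ch S (x + y) = ch S x * ch S y := by
  unfold ch
  rw [bl_add_right, sg_add]

theorem ch_add_left (S T x : W → ZMod 2) : ch (S + T) x = ch S x * ch T x := by
  unfold ch
  rw [bl_add_left, sg_add]

theorem ch_zero (S : W → ZMod 2) : ch S 0 = 1 := by
  unfold ch
  rw [bl_zero_right, sg_zero]

theorem ch_sum {ι : Type} (s : Finset ι) (S : W → ZMod 2) (x : ι → W → ZMod 2) :
    ch S (∑ i ∈ s, x i) = ∏ i ∈ s, ch S (x i) := by
  classical
  induction s using Finset.induction_on with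
  | empty => simp [ch_zero]
  | insert i s hi ih => rw [sum_insert hi, prod_insert hi, ch_add, ih]

/-- the functions with values zero outside `A` -/
def cub (A : Finset W) : Finset (W → ZMod 2) := univ.filter fun x => ∀ w, w ∉ A → x w = 0

theorem mem_cub {A : Finset W} {x : W → ZMod 2} : x ∈ cub A ↔ ∀ w, w ∉ A → x w = 0 := by
  simp [cub]

theorem add_single_mem {A : Finset W} {x : W → ZMod 2} {w : W} (hw : w ∈ A) :
    x + Pi.single w 1 ∈ cub A ↔ x ∈ cub A := by
  rw [mem_cub, mem_cub]
  constructor
  · intro h v hv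
    have h1 := h v hv
    rw [Pi.add_apply, Pi.single_eq_of_ne (by rintro rfl; exact hv hw), add_zero] at h1
    exact h1
  · intro h v hv
    rw [Pi.add_apply, Pi.single_eq_of_ne (by rintro rfl; exact hv hw), add_zero]
    exact h v hv

theorem char2 (x : W → ZMod 2) : x + x = 0 := by
  funext w
  exact CharTwo.add_self_eq_zero (x w)

theorem sum_cub_zero {A : Finset W} {T : W → ZMod 2} {w : W} (hw : w ∈ A) (hT : T w ≠ 0) :
    ∑ x ∈ cub A, ch T x = 0 := by
  have hT1 : T w = 1 := (zmod2_cases (T w)).resolve_left hT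
  have h : ∑ x ∈ cub A, ch T x = ∑ x ∈ cub A, - ch T x := by
    refine Finset.sum_bij' (fun x _ => x + Pi.single w 1) (fun x _ => x + Pi.single w 1)
      (fun x hx => (add_single_mem hw).2 hx) (fun x hx => (add_single_mem hw).2 hx) ?_ ?_ ?_
    · intro x _
      rw [add_assoc, char2, add_zero]
    · intro x _
      rw [add_assoc, char2, add_zero]
    · intro x _
      rw [ch_add]
      unfold ch
      rw [bl_single, hT1, sg_one]
      ring
  rw [sum_neg_distrib] at h
  linarith

theorem sum_cub_card {A : Finset W} {T : W → ZMod 2} (hT : ∀ w ∈ A, T w = 0) :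
    ∑ x ∈ cub A, ch T x = (cub A).card := by
  rw [Finset.sum_congr rfl (g := fun _ => (1 : ℝ))]
  · simp
  · intro x hx
    rw [mem_cub] at hx
    have : bl T x = 0 := by
      unfold bl
      refine Finset.sum_eq_zero fun w _ => ?_
      by_cases hw : w ∈ A
      · rw [hT w hw, zero_mul]
      · rw [hx w hw, mul_zero]
    unfold ch
    rw [this, sg_zero]

theorem cub_card_pos (A : Finset W) : (0 : ℝ) < (cub A).card := by
  have : 0 < (cub A).card := card_pos.2 ⟨0, mem_cub.2 fun _ _ => rfl⟩
  exact_mod_cast this

theorem cub_univ : cub (univ : Finset W) = univ := by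
  ext x
  simp [cub]

/-- the Fourier transform -/
def ft (F : (W → ZMod 2) → ℝ) (S : W → ZMod 2) : ℝ := ∑ x, F x * ch S x

theorem sum_ch (y : W → ZMod 2) :
    ∑ S : W → ZMod 2, ch S y = if y = 0 then (Fintype.card (W → ZMod 2) : ℝ) else 0 := by
  split_ifs with h
  · subst h
    simp [ch_zero]
  · have h1 : ∃ w, y w ≠ 0 := by
      by_contra hcon
      push Not at hcon
      exact h (funext hcon)
    obtain ⟨w, hw⟩ := h1
    have h2 := sum_cub_zero (A := univ) (mem_univ w) hw
    rw [cub_univ] at h2
    rw [← h2]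
    exact sum_congr rfl fun S _ => ch_comm _ _

theorem inversion (F : (W → ZMod 2) → ℝ) (y : W → ZMod 2) :
    ∑ S, ft F S * ch S y = Fintype.card (W → ZMod 2) * F y := by
  unfold ft
  simp only [Finset.sum_mul]
  rw [Finset.sum_comm]
  have h : ∀ x : W → ZMod 2, ∑ S : W → ZMod 2, F x * ch S x * ch S y =
      if x = y then (Fintype.card (W → ZMod 2) : ℝ) * F y else 0 := by
    intro x
    have h1 : ∑ S : W → ZMod 2, F x * ch S x * ch S y = F x * ∑ S : W → ZMod 2, ch S (x + y) := by
      rw [mul_sum]
      exact sum_congr rfl fun S _ => by rw [ch_add, mul_assoc]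
    rw [h1, sum_ch]
    by_cases hxy : x = y
    · subst hxy
      rw [if_pos (char2 x), if_pos rfl, mul_comm]
    · rw [if_neg, if_neg hxy, mul_zero]
      intro h0
      apply hxy
      have : x = x + y + y := by rw [add_assoc, char2, add_zero]
      rw [this, h0, zero_add]
  rw [Finset.sum_congr rfl (fun x _ => h x)]
  simp

/-- restriction to a subcube -/
theorem restricted (F : (W → ZMod 2) → ℝ) (A : Finset W) (U : W → ZMod 2)
    (huniq : ∀ S, ft F S ≠ 0 → (∀ w ∈ A, S w = U w) → S = U) :
    Fintype.card (W → ZMod 2) * ∑ x ∈ cub A, F x * ch U x = ft F U * (cub A).card := by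
  rw [mul_sum]
  have h1 : ∀ x ∈ cub A, (Fintype.card (W → ZMod 2) : ℝ) * (F x * ch U x) =
      ∑ S, ft F S * ch (S + U) x := by
    intro x _
    rw [← mul_assoc, ← inversion, sum_mul]
    exact sum_congr rfl fun S _ => by rw [ch_add_left, mul_assoc]
  rw [sum_congr rfl h1, sum_comm]
  simp only [← mul_sum]
  rw [Finset.sum_eq_single U]
  · rw [sum_cub_card]
    intro w _
    rw [char2]
    rfl
  · intro S _ hS
    by_cases h0 : ft F S = 0
    · rw [h0, zero_mul]
    · have h2 : ∃ w ∈ A, S w ≠ U w := by
        by_contra hcon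
        push Not at hcon
        exact hS (huniq S h0 hcon)
      obtain ⟨w, hw, hne⟩ := h2
      rw [sum_cub_zero hw, mul_zero]
      rw [Pi.add_apply]
      intro h3
      apply hne
      rcases zmod2_cases (S w) with h4 | h4 <;> rcases zmod2_cases (U w) with h5 | h5
      · rw [h4, h5]
      · rw [h4, h5] at h3
        exact absurd h3 (by decide)
      · rw [h4, h5] at h3
        exact absurd h3 (by decide)
      · rw [h4, h5]
  · intro h
    exact absurd (mem_univ _) h

/-- the number of nonzero coefficients is at most the rank of the matrix -/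
theorem card_le_rank (F : (W → ZMod 2) → ℝ) (s : Finset (W → ZMod 2))
    (hs : ∀ S ∈ s, ft F S ≠ 0) :
    s.card ≤ (Matrix.of fun x y : W → ZMod 2 => F (x + y)).rank := by
  classical
  set M : Matrix (W → ZMod 2) (W → ZMod 2) ℝ := Matrix.of fun x y => F (x + y) with hM
  have heig : ∀ S : W → ZMod 2, M.mulVec (fun y => ch S y) = ft F S • (fun x => ch S x) := by
    intro S
    funext x
    simp only [Matrix.mulVec, dotProduct, hM, Matrix.of_apply, Pi.smul_apply, smul_eq_mul]
    unfold ft
    rw [sum_mul]
    refine Fintype.sum_equiv (Equiv.addLeft x) _ _ fun y => ?_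
    rw [Equiv.coe_addLeft, ch_add, mul_assoc]
    congr 1
    rw [mul_comm (ch S x), mul_assoc]
    unfold ch
    rw [sg_mul_self, mul_one]
  have hli : LinearIndependent ℝ (fun S : s => (fun x => ch S.1 x : (W → ZMod 2) → ℝ)) := by
    rw [Fintype.linearIndependent_iff]
    intro c hc T
    have h1 := congrArg (fun v : (W → ZMod 2) → ℝ => ∑ x, v x * ch T.1 x) hc
    simp only [Finset.sum_apply, Pi.smul_apply, smul_eq_mul, Pi.zero_apply, zero_mul,
      sum_const_zero] at h1
    simp only [sum_mul] at h1
    rw [sum_comm] at h1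
    have h2 : ∀ S : s, ∑ x : W → ZMod 2, c S * ch S.1 x * ch T.1 x =
        if S = T then c T * (Fintype.card (W → ZMod 2) : ℝ) else 0 := by
      intro S
      have h3 : ∑ x : W → ZMod 2, c S * ch S.1 x * ch T.1 x =
          c S * ∑ x : W → ZMod 2, ch x (S.1 + T.1) := by
        rw [mul_sum]
        exact sum_congr rfl fun x _ => by rw [ch_comm x, ch_add_left, mul_assoc]
      rw [h3, sum_ch]
      by_cases hST : S = T
      · subst hST
        rw [if_pos (char2 _), if_pos rfl]
      · rw [if_neg, if_neg hST, mul_zero]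
        intro h0
        apply hST
        apply Subtype.ext
        have : S.1 = S.1 + T.1 + T.1 := by rw [add_assoc, char2, add_zero]
        rw [this, h0, zero_add]
    rw [sum_congr rfl (fun S _ => h2 S)] at h1
    simp only [sum_ite_eq', mem_univ, if_true] at h1
    rcases mul_eq_zero.1 h1 with h4 | h4
    · exact h4
    · exfalso
      have h5 : (Fintype.card (W → ZMod 2) : ℝ) ≠ 0 := by
        have := Fintype.card_pos (α := W → ZMod 2)
        positivity
      exact h5 h4
  have hsub : Submodule.span ℝ (Set.range (fun S : s => (fun x => ch S.1 x : (W → ZMod 2) → ℝ))) ≤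
      LinearMap.range M.mulVecLin := by
    rw [Submodule.span_le]
    rintro _ ⟨S, rfl⟩
    refine ⟨(ft F S.1)⁻¹ • fun y => ch S.1 y, ?_⟩
    rw [map_smul, Matrix.mulVecLin_apply, heig, smul_smul, inv_mul_cancel₀ (hs S.1 S.2), one_smul]
  have h1 := finrank_span_eq_card hli
  have h2 := Submodule.finrank_mono hsub
  rw [h1, Fintype.card_coe] at h2
  exact h2

end Pool.Agent.TH410.LR
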