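import Pool.Agent.TH410.LR.Act

set_option autoImplicit false
set_option linter.unusedSectionVars false

/-! Many disjoint copies of a configuration. -/

namespace Pool.Agent.TH410.LR

open Finset Equiv

variable {α : Type} [Fintype α] [DecidableEq α] {W : Type} [Fintype W] [DecidableEq W]
  [MulAction (Perm α) W]

section Blocks

variable {K : ℕ} {A : Finset α} (ι : Option (Fin K × Bool) × {a // a ∈ A} ↪ α)

/-- permutations of the blocks -/
noncomputable def Mv (π : Perm (Option (Fin K × Bool))) : Perm α :=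
  Perm.viaEmbedding (Equiv.prodCongr π (Equiv.refl _)) ι

theorem Mv_apply (π : Perm (Option (Fin K × Bool))) (j : Option (Fin K × Bool))
    (a : {a // a ∈ A}) : Mv ι π (ι (j, a)) = ι (π j, a) := by
  unfold Mv
  rw [Perm.viaEmbedding_apply]
  rfl

theorem Mv_of_notMem (π : Perm (Option (Fin K × Bool))) (x : α) (hx : x ∉ Set.range ι) :
    Mv ι π x = x := by
  unfold Mv
  rw [Perm.viaEmbedding_apply_of_notMem _ _ _ hx]

/-- the blocks -/
def Vb (j : Option (Fin K × Bool)) : Finset α := univ.image fun a => ι (j, a)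

theorem mem_Vb {j : Option (Fin K × Bool)} {x : α} : x ∈ Vb ι j ↔ ∃ a, ι (j, a) = x := by
  simp [Vb]

/-- the copy of a function in a block -/
noncomputable def cp (j : Option (Fin K × Bool)) (x : W → ZMod 2) : W → ZMod 2 :=
  ac (Mv ι (swap none j)) x

theorem cp_add (j : Option (Fin K × Bool)) (x y : W → ZMod 2) :
    cp ι j (x + y) = cp ι j x + cp ι j y := map_add _ _ _

variable (hι : ∀ a, ι (none, a) = a)

include hι

theorem Mv_cp {k : ℕ} {x : W → ZMod 2} (hx : x ∈ cub (LA k A))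
    (π : Perm (Option (Fin K × Bool))) (j : Option (Fin K × Bool)) :
    ac (Mv ι π) (cp ι j x) = cp ι (π j) x := by
  unfold cp
  rw [← ac_mul]
  apply ac_agree hx
  intro a ha
  have h1 : a = ι (none, ⟨a, ha⟩) := (hι ⟨a, ha⟩).symm
  rw [h1, Perm.mul_apply, Mv_apply, Mv_apply, Mv_apply, swap_apply_left, swap_apply_left]

theorem cp_none {k : ℕ} {x : W → ZMod 2} (hx : x ∈ cub (LA k A)) : cp ι none x = x := by
  unfold cp
  rw [ac_agree hx (g' := 1), ac_one]
  intro a ha
  have h1 : a = ι (none, ⟨a, ha⟩) := (hι ⟨a, ha⟩).symm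
  rw [h1, Mv_apply, swap_apply_left, Perm.one_apply]

theorem bl_cp_eq {k : ℕ} {x : W → ZMod 2} (hx : x ∈ cub (LA k A)) {B : Finset α}
    {S : W → ZMod 2} (hS : SpF B S) (i j : Option (Fin K × Bool))
    (hi : Disjoint B (Vb ι i)) (hj : Disjoint B (Vb ι j)) :
    bl S (cp ι i x) = bl S (cp ι j x) := by
  have h1 := Mv_cp ι hι hx (swap i j) i
  rw [swap_apply_left] at h1
  rw [← h1]
  symm
  apply bl_ac_of_fix hS
  intro a ha
  by_cases hr : a ∈ Set.range ι
  · obtain ⟨⟨l, c⟩, rfl⟩ := hr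
    rw [Mv_apply]
    have hl1 : l ≠ i := by
      rintro rfl
      exact (disjoint_left.1 hi) ha ((mem_Vb ι).2 ⟨c, rfl⟩)
    have hl2 : l ≠ j := by
      rintro rfl
      exact (disjoint_left.1 hj) ha ((mem_Vb ι).2 ⟨c, rfl⟩)
    rw [swap_apply_of_ne_of_ne hl1 hl2]
  · exact Mv_of_notMem ι _ a hr

/-- the gadget -/
noncomputable def Eg (P Q : W → ZMod 2) (i : Fin K) : W → ZMod 2 :=
  cp ι (some (i, false)) P + cp ι (some (i, true)) Q

omit hι in
theorem card_hit (B : Finset α) :
    (univ.filter fun i : Fin K => ¬ (Disjoint B (Vb ι (some (i, false))) ∧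
      Disjoint B (Vb ι (some (i, true))))).card ≤ B.card := by
  classical
  have h1 : ∀ i : {i // i ∈ univ.filter fun i : Fin K => ¬ (Disjoint B (Vb ι (some (i, false))) ∧
      Disjoint B (Vb ι (some (i, true))))}, ∃ (a : {a // a ∈ B}) (c : Bool)
        (e : {a // a ∈ A}), ι (some (i.1, c), e) = a.1 := by
    rintro ⟨i, hi⟩
    rw [mem_filter] at hi
    have h2 := hi.2
    rw [not_and_or, not_disjoint_iff, not_disjoint_iff] at h2
    rcases h2 with ⟨a, ha, hb⟩ | ⟨a, ha, hb⟩
    · obtain ⟨e, he⟩ := (mem_Vb ι).1 hb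
      exact ⟨⟨a, ha⟩, false, e, he⟩
    · obtain ⟨e, he⟩ := (mem_Vb ι).1 hb
      exact ⟨⟨a, ha⟩, true, e, he⟩
  choose a c e he using h1
  have hinj : Function.Injective a := by
    intro i j hij
    have h2 := he i
    rw [hij, ← he j] at h2
    have h3 := ι.injective h2
    rw [Prod.mk.injEq, Option.some.injEq, Prod.mk.injEq] at h3
    exact Subtype.ext h3.1.1
  have := Fintype.card_le_of_injective a hinj
  rwa [Fintype.card_coe, Fintype.card_coe] at this

theorem gadget {k b : ℕ} (F : (W → ZMod 2) → ℝ) (h01 : ∀ x, F x = 0 ∨ F x = 1)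
    (hinv : ∀ (g : Perm α) x, F (ac g x) = F x) (Bf : (W → ZMod 2) → Finset α)
    (hBf : ∀ S, ft F S ≠ 0 → (Bf S).card ≤ b ∧ SpF (Bf S) S) (hK : 2 * b ≤ K)
    {z P Q : W → ZMod 2} (hz : z ∈ cub (LA k A)) (hP : P ∈ cub (LA k A))
    (hQ : Q ∈ cub (LA k A))
    (hH : ∀ (S : W → ZMod 2) (i : Fin K), ft F S ≠ 0 → Disjoint (Bf S) (Vb ι (some (i, false))) →
      Disjoint (Bf S) (Vb ι (some (i, true))) → ch S (Eg ι P Q i) = 1) (T : Finset (Fin K)) :
    F (z + ∑ i ∈ T, Eg ι P Q i) = F z := by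
  classical
  have hN : (Fintype.card (W → ZMod 2) : ℝ) ≠ 0 := by
    have := Fintype.card_pos (α := W → ZMod 2)
    positivity
  have key := sym_const K b hK (fun T => F (z + ∑ i ∈ T, Eg ι P Q i)) (fun T => h01 _) ?_
    (univ : Finset (W → ZMod 2))
    (fun S => ft F S * ch S z / Fintype.card (W → ZMod 2)) (fun S T => ∏ i ∈ T, ch S (Eg ι P Q i))
    (fun S => univ.filter fun i : Fin K => ¬ (Disjoint (Bf S) (Vb ι (some (i, false))) ∧
      Disjoint (Bf S) (Vb ι (some (i, true))))) ?_ ?_ T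
  · simpa using key
  · intro T T' hTT
    obtain ⟨σ, rfl⟩ := Equiv.Perm.exists_map_finset_eq T T' hTT
    set π : Perm (Option (Fin K × Bool)) := optionCongr (Equiv.prodCongr σ (Equiv.refl _)) with hπ
    rw [← hinv (Mv ι π) (z + ∑ i ∈ T, Eg ι P Q i), map_add, map_sum]
    have h1 : ac (Mv ι π) z = z := by
      have h2 := Mv_cp ι hι hz π none
      rw [cp_none ι hι hz] at h2
      have h3 : π none = none := rfl
      rw [h3, cp_none ι hι hz] at h2
      exact h2
    rw [h1, sum_map]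
    congr 2
    refine sum_congr rfl fun i _ => ?_
    unfold Eg
    rw [map_add, Mv_cp ι hι hP, Mv_cp ι hι hQ]
    rfl
  · intro T
    have h1 := inversion F (z + ∑ i ∈ T, Eg ι P Q i)
    have h2 : F (z + ∑ i ∈ T, Eg ι P Q i) =
        (∑ S, ft F S * ch S (z + ∑ i ∈ T, Eg ι P Q i)) / Fintype.card (W → ZMod 2) := by
      rw [h1]
      field_simp
    rw [h2, sum_div]
    refine sum_congr rfl fun S _ => ?_
    rw [ch_add, ch_sum]
    ring
  · intro S _ hS
    have hS0 : ft F S ≠ 0 := by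
      intro h0
      apply hS
      rw [h0, zero_mul, zero_div]
    obtain ⟨h1, h2⟩ := hBf S hS0
    refine ⟨(card_hit ι (Bf S)).trans h1, fun T => ?_⟩
    symm
    apply prod_subset inter_subset_left
    intro i hi hi2
    rw [mem_inter, not_and] at hi2
    have h3 := hi2 hi
    rw [mem_filter, not_and, not_not] at h3
    have h4 := h3 (mem_univ _)
    exact hH S i hS0 h4.1 h4.2

/-- two configurations which differ in two points of the same orbit -/
theorem swap_value {k b : ℕ} (F : (W → ZMod 2) → ℝ) (h01 : ∀ x, F x = 0 ∨ F x = 1)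
    (hinv : ∀ (g : Perm α) x, F (ac g x) = F x) (Bf : (W → ZMod 2) → Finset α)
    (hBf : ∀ S, ft F S ≠ 0 → (Bf S).card ≤ b ∧ SpF (Bf S) S) (hK : 2 * b ≤ K) (hK1 : 1 ≤ K)
    (hn : b + 2 * k ≤ Fintype.card α)
    {x x' : W → ZMod 2} (hx : x ∈ cub (LA k A)) (hx' : x' ∈ cub (LA k A)) {u v : W}
    (hu : Loc k A u) (hv : Loc k A v) (r : Perm α) (hr : v = r • u)
    (hxx : x + x' = Pi.single u 1 + Pi.single v 1) : F x = F x' := by
  classical
  set i : Fin K := ⟨0, by omega⟩ with hi
  have e1 : F (x + ∑ j ∈ {i}, Eg ι x' x' j) = F x := by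
    refine gadget ι hι F h01 hinv Bf hBf hK hx hx' hx' ?_ {i}
    intro S j hS h1 h2
    unfold Eg
    rw [ch_add]
    unfold ch
    rw [bl_cp_eq ι hι hx' (hBf S hS).2 _ _ h1 h2, sg_mul_self]
  have e2 : F (x' + ∑ j ∈ {i}, Eg ι x x' j) = F x' := by
    refine gadget ι hι F h01 hinv Bf hBf hK hx' hx hx' ?_ {i}
    intro S j hS h1 h2
    unfold Eg ch
    rw [bl_add_right, ← bl_cp_eq ι hι hx' (hBf S hS).2 _ _ h1 h2, ← bl_add_right, ← cp_add, hxx,
      cp_add, bl_add_right]
    unfold cp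
    rw [ac_single, ac_single, bl_single, bl_single]
    have h3 : S (Mv ι (swap none (some (j, false))) • u) =
        S (Mv ι (swap none (some (j, false))) • v) := by
      refine two_points (hBf S hS).2 (hBf S hS).1 hn h1 (u := Mv ι (swap none (some (j, false))) • u)
        (v := Mv ι (swap none (some (j, false))) • v) ?_ ?_
        (Mv ι (swap none (some (j, false))) * r * (Mv ι (swap none (some (j, false))))⁻¹) ?_
      · apply hu.smul
        intro a ha
        have h4 : a = ι (none, ⟨a, ha⟩) := (hι ⟨a, ha⟩).symm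
        rw [h4, Mv_apply, swap_apply_left]
        exact (mem_Vb ι).2 ⟨_, rfl⟩
      · apply hv.smul
        intro a ha
        have h4 : a = ι (none, ⟨a, ha⟩) := (hι ⟨a, ha⟩).symm
        rw [h4, Mv_apply, swap_apply_left]
        exact (mem_Vb ι).2 ⟨_, rfl⟩
      · rw [mul_smul, mul_smul, inv_smul_smul, hr]
    rw [h3, CharTwo.add_self_eq_zero, sg_zero]
  rw [sum_singleton] at e1 e2
  rw [← e1, ← e2, ← hinv (Mv ι (swap none (some (i, false))))]
  congr 1
  unfold Eg
  rw [map_add, map_add, Mv_cp ι hι hx', Mv_cp ι hι hx', swap_apply_right,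
    swap_apply_of_ne_of_ne (by simp) (by simp), cp_none ι hι hx']
  have h5 : ac (Mv ι (swap none (some (i, false)))) x = cp ι (some (i, false)) x := rfl
  rw [h5]
  abel

end Blocks

end Pool.Agent.TH410.LR
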