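import Pool.Agent.TH410.LR.Fin

set_option autoImplicit false
set_option linter.unusedSectionVars false

/-! Graph properties. -/

namespace Pool.Agent.TH410.LR

open Finset Equiv

variable (n : ℕ)

/-- the function of a graph property -/
noncomputable def gf (P : SimpleGraph (Fin n) → Bool) (x : Pr n → ZMod 2) : Bool :=
  P ((gv n).symm x)

theorem gv_symm_adj (x : Pr n → ZMod 2) (a b : Fin n) :
    ((gv n).symm x).Adj a b ↔ ∃ h : ¬ (s(a, b) : Sym2 (Fin n)).IsDiag, x ⟨s(a, b), h⟩ = 1 := by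
  change (SimpleGraph.fromEdgeSet _).Adj a b ↔ _
  rw [SimpleGraph.fromEdgeSet_adj]
  constructor
  · rintro ⟨h, _⟩
    exact h
  · intro h
    exact ⟨h, fun hab => h.1 (Sym2.mk_isDiag_iff.2 hab)⟩

theorem gf_inv (P : SimpleGraph (Fin n) → Bool)
    (hP : ∀ G H : SimpleGraph (Fin n), Nonempty (G ≃g H) → P G = P H)
    (g : ∀ _ : Unit, Perm (Fin n)) (x : Pr n → ZMod 2) :
    gf n P (fun w => x (g • w)) = gf n P x := by
  unfold gf
  apply hP
  refine ⟨⟨g (), ?_⟩⟩
  intro a b
  rw [gv_symm_adj, gv_symm_adj]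
  have hd : (s(g () a, g () b) : Sym2 (Fin n)).IsDiag ↔ (s(a, b) : Sym2 (Fin n)).IsDiag := by
    rw [Sym2.mk_isDiag_iff, Sym2.mk_isDiag_iff, (g ()).injective.eq_iff]
  constructor
  · rintro ⟨h, h1⟩
    exact ⟨fun h2 => h (hd.2 h2), h1⟩
  · rintro ⟨h, h1⟩
    exact ⟨fun h2 => h (hd.1 h2), h1⟩

theorem trans_pairs (e e' : Pr n) : ∃ g : ∀ _ : Unit, Perm (Fin n), g • e = e' := by
  obtain ⟨e, he⟩ := e
  obtain ⟨e', he'⟩ := e'
  induction e using Sym2.ind with
  | _ a b =>
  induction e' using Sym2.ind with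
  | _ c d =>
  have hab : a ≠ b := fun h => he (Sym2.mk_isDiag_iff.2 h)
  have hcd : c ≠ d := fun h => he' (Sym2.mk_isDiag_iff.2 h)
  obtain ⟨σ, hσ⟩ := Equiv.Perm.exists_extending_pair ![a, b] ![c, d]
    (by
      intro i j hij
      fin_cases i <;> fin_cases j <;> simp_all)
    (by
      intro i j hij
      fin_cases i <;> fin_cases j <;> simp_all)
  have h0 : σ a = c := hσ 0
  have h1 : σ b = d := hσ 1
  refine ⟨fun _ => σ, Subtype.ext ?_⟩
  rw [smul_val, Sym2.map_mk, h0, h1]

theorem orbits_le :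
    Nat.card (MulAction.orbitRel.Quotient (∀ _ : Unit, Perm (Fin n)) (Pr n)) ≤ 1 := by
  have : Subsingleton (MulAction.orbitRel.Quotient (∀ _ : Unit, Perm (Fin n)) (Pr n)) := by
    constructor
    intro a b
    induction a using Quotient.inductionOn with
    | _ a =>
    induction b using Quotient.inductionOn with
    | _ b =>
    apply Quotient.sound
    obtain ⟨g, hg⟩ := trans_pairs n b a
    exact ⟨g, hg⟩
  exact Finite.card_le_one_iff_subsingleton.2 this

/-- the vertices of a pair -/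
def dp (e : Pr n) : Finset (Σ _ : Unit, Fin n) :=
  (univ.filter fun a : Fin n => a ∈ e.1).map ⟨fun a => ⟨(), a⟩, fun a b h => by simpa using h⟩

theorem dp_card (e : Pr n) : (dp n e).card ≤ 2 := by
  classical
  unfold dp
  rw [card_map]
  obtain ⟨e, he⟩ := e
  induction e using Sym2.ind with
  | _ a b =>
  have : (univ.filter fun c : Fin n => c ∈ (s(a, b) : Sym2 (Fin n))) ⊆ {a, b} := by
    intro c hc
    rw [mem_filter, Sym2.mem_iff] at hc
    simpa using hc.2
  exact (card_le_card this).trans card_le_two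

theorem dp_fix (e : Pr n) (g : ∀ _ : Unit, Perm (Fin n))
    (h : ∀ p ∈ dp n e, g p.1 p.2 = p.2) : g • e = e := by
  apply Subtype.ext
  rw [smul_val]
  obtain ⟨e, he⟩ := e
  induction e using Sym2.ind with
  | _ a b =>
  have h1 : ∀ c ∈ (s(a, b) : Sym2 (Fin n)), g () c = c := by
    intro c hc
    exact h ⟨(), c⟩ (mem_map.2 ⟨c, mem_filter.2 ⟨mem_univ _, hc⟩, rfl⟩)
  simp only [Sym2.map_mk]
  rw [h1 a (Sym2.mem_mk_left _ _), h1 b (Sym2.mem_mk_right _ _)]

theorem rank_eq (P : SimpleGraph (Fin n) → Bool) :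
    logRank (fun G H : SimpleGraph (Fin n) => P (symmDiff G H)) =
      logRank (fun x y : Pr n → ZMod 2 => gf n P (x + y)) := by
  unfold logRank
  have h1 : (Matrix.of fun G H : SimpleGraph (Fin n) => if P (symmDiff G H) then (1 : ℝ) else 0) =
      (Matrix.of fun x y : Pr n → ZMod 2 => if gf n P (x + y) then (1 : ℝ) else 0).submatrix
        (gv n) (gv n) := by
    ext G H
    simp only [Matrix.of_apply, Matrix.submatrix_apply]
    unfold gf
    rw [← gv_symmDiff, Equiv.symm_apply_apply]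
  rw [h1, Matrix.rank_submatrix]

theorem graphs_protocol (P : SimpleGraph (Fin n) → Bool)
    (hP : ∀ G H : SimpleGraph (Fin n), Nonempty (G ≃g H) → P G = P H) :
    HasProtocol (fun G H : SimpleGraph (Fin n) => P (symmDiff G H))
      (112897 * (logRank (fun G H : SimpleGraph (Fin n) => P (symmDiff G H)) + 1) ^ 4) := by
  obtain ⟨c, owner, a, b, out, h, hc⟩ := final (n := fun _ : Unit => n) (dp n) (dp_card n)
    (dp_fix n) (orbits_le n) (gf n P) (gf_inv n P hP)
  refine ⟨c, owner, fun t G => a t (gv n G), fun t H => b t (gv n H), out, ?_, ?_⟩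
  · intro G H
    have h1 := h (gv n G) (gv n H)
    rw [h1]
    change P ((gv n).symm (gv n G + gv n H)) = P (symmDiff G H)
    rw [← gv_symmDiff, Equiv.symm_apply_apply]
  · refine hc.trans ?_
    rw [rank_eq]
    have h2 := logRank_nonneg (fun x y : Pr n → ZMod 2 => gf n P (x + y))
    set L := logRank (fun x y : Pr n → ZMod 2 => gf n P (x + y))
    have h3 : (1 : ℝ) ≤ (L + 1) ^ 4 := one_le_pow₀ (by linarith)
    push_cast
    nlinarith

theorem edges_mod (G : SimpleGraph (Fin n)) :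
    ∑ e, gv n G e = ((G.edgeSet.ncard : ℕ) : ZMod 2) := by
  classical
  have h1 : ∑ e, gv n G e = ∑ e : Pr n, if e.1 ∈ G.edgeSet then (1 : ZMod 2) else 0 := rfl
  rw [h1, Finset.sum_boole]
  congr 1
  have h2 : G.edgeSet = Subtype.val '' (↑(univ.filter fun e : Pr n => e.1 ∈ G.edgeSet) :
      Set (Pr n)) := by
    ext e
    constructor
    · intro he
      exact ⟨⟨e, G.not_isDiag_of_mem_edgeSet he⟩, by simpa using he, rfl⟩
    · rintro ⟨e, he, rfl⟩
      simpa using he
  conv_rhs => rw [h2]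
  rw [Set.ncard_image_of_injective _ Subtype.val_injective, Set.ncard_coe_finset]

theorem graphs_parity (P : SimpleGraph (Fin n) → Bool)
    (hP : ∀ G H : SimpleGraph (Fin n), Nonempty (G ≃g H) → P G = P H)
    (hn : 336 * (logRank (fun G H : SimpleGraph (Fin n) => P (symmDiff G H)) + 1) ^ 2 ≤ n) :
    ∃ q : ZMod 2 → Bool, ∀ G : SimpleGraph (Fin n), P G = q (G.edgeSet.ncard : ZMod 2) := by
  classical
  rw [rank_eq] at hn
  set f := gf n P with hf
  obtain ⟨r, hr⟩ : ∃ r, r = (Matrix.of fun x y : Pr n → ZMod 2 =>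
    if f (x + y) then (1 : ℝ) else 0).rank := ⟨_, rfl⟩
  have hsup : ∀ t : Finset (Pr n → ZMod 2), (∀ S ∈ t, ft (rl f) S ≠ 0) → t.card ≤ r := by
    intro t ht
    rw [hr]
    exact supp_le f t ht
  have hLr : logRank (fun x y : Pr n → ZMod 2 => f (x + y)) = Real.logb 2 r := by
    rw [hr]
    rfl
  rw [hLr] at hn
  have hn0 : n0 2 r ≤ n := by
    have h1 := n0_le 2 r
    have h2 : ((n0 2 r : ℕ) : ℝ) ≤ (n : ℝ) := by
      refine h1.trans (le_trans (le_of_eq ?_) hn)
      push_cast
      ring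
    exact_mod_cast h2
  have hS : ∀ S, ft (rl f) S ≠ 0 → ∀ w w', S w = S w' := by
    intro S hS w w'
    obtain ⟨g, hg⟩ := trans_pairs n w w'
    rw [← hg]
    symm
    exact many_sorts (I := Unit) (n := fun _ => n) (k := 2) (s := r) (dp n) (dp_card n) (dp_fix n)
      (rl f) (rl01 f) (fun g x => by unfold rl; rw [hf, gf_inv n P hP g x]) hsup S hS g
      (fun i hi => absurd hi (by simpa using hn0)) w
  have hval : ∀ x y : Pr n → ZMod 2, ∑ e, x e = ∑ e, y e → f x = f y := by
    intro x y hxy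
    apply rl_inj
    have hNc : (Fintype.card (Pr n → ZMod 2) : ℝ) ≠ 0 := by
      have := Fintype.card_pos (α := Pr n → ZMod 2)
      positivity
    have h1 := inversion (rl f) x
    have h2 := inversion (rl f) y
    have h3 : ∑ S, ft (rl f) S * ch S x = ∑ S, ft (rl f) S * ch S y := by
      refine sum_congr rfl fun S _ => ?_
      by_cases hS0 : ft (rl f) S = 0
      · rw [hS0, zero_mul, zero_mul]
      · unfold ch bl
        rcases isEmpty_or_nonempty (Pr n) with he | ⟨⟨e₀⟩⟩
        · simp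
        · have h4 : ∀ z : Pr n → ZMod 2, ∑ w, S w * z w = S e₀ * ∑ w, z w := by
            intro z
            rw [mul_sum]
            exact sum_congr rfl fun w _ => by rw [hS S hS0 w e₀]
          rw [h4, h4, hxy]
    rw [h1, h2] at h3
    exact mul_left_cancel₀ hNc h3
  refine ⟨fun a => if h : ∃ x : Pr n → ZMod 2, ∑ e, x e = a then f h.choose else false, ?_⟩
  intro G
  have hex : ∃ x : Pr n → ZMod 2, ∑ e, x e = ((G.edgeSet.ncard : ℕ) : ZMod 2) :=
    ⟨gv n G, edges_mod n G⟩
  simp only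
  rw [dif_pos hex]
  have h1 : P G = f (gv n G) := by
    rw [hf]
    unfold gf
    rw [Equiv.symm_apply_apply]
  rw [h1]
  apply hval
  rw [hex.choose_spec, edges_mod]

end Pool.Agent.TH410.LR
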