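import Pool.Agent.TH410.LR.Gad

set_option autoImplicit false
set_option linter.unusedSectionVars false

/-! The Fourier support of an invariant Boolean function with small supports is invariant. -/

namespace Pool.Agent.TH410.LR

open Finset Equiv

variable {α : Type} [Fintype α] [DecidableEq α] {W : Type} [Fintype W] [DecidableEq W]
  [MulAction (Perm α) W]

theorem exists_min_sup (S : W → ZMod 2) : ∃ B : Finset α, SpF B S ∧
    ∀ B' : Finset α, SpF B' S → B.card ≤ B'.card := by
  classical
  have hne : (univ.filter (fun B : Finset α => SpF B S)).Nonempty := by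
    refine ⟨univ, ?_⟩
    rw [mem_filter]
    refine ⟨mem_univ _, ?_⟩
    intro g hg w
    have : g = 1 := Equiv.ext fun x => hg x (mem_univ x)
    rw [this, one_smul]
  obtain ⟨B, hB, hmin⟩ := Finset.exists_min_image _ (fun B : Finset α => B.card) hne
  rw [mem_filter] at hB
  exact ⟨B, hB.2, fun B' hB' => hmin B' (by rw [mem_filter]; exact ⟨mem_univ _, hB'⟩)⟩

/-- removing a point from a support -/
theorem SpF.erase {B : Finset α} {S : W → ZMod 2} (hB : SpF B S) {v c : α} (hv : v ∈ B)
    (hc : c ∉ B) (hs : ∀ w, S (swap v c • w) = S w) : SpF (B.erase v) S := by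
  have hs' : ∀ c' ∉ B, ∀ w, S (swap v c' • w) = S w := by
    intro c' hc' w
    have hvc : v ≠ c := by rintro rfl; exact hc hv
    have hvc' : v ≠ c' := by rintro rfl; exact hc' hv
    have h1 : (swap v c' : Perm α) = swap c c' * (swap v c * swap c c') := by
      by_cases hcc : c = c'
      · subst hcc
        rw [swap_self]
        rfl
      · apply Equiv.ext
        intro x
        simp only [Perm.mul_apply]
        by_cases hx1 : x = v
        · subst hx1
          rw [swap_apply_left, swap_apply_of_ne_of_ne hvc hvc', swap_apply_left, swap_apply_left]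
        · by_cases hx2 : x = c'
          · subst hx2
            rw [swap_apply_right, swap_apply_right, swap_apply_right,
              swap_apply_of_ne_of_ne hvc hvc']
          · by_cases hx3 : x = c
            · subst hx3
              rw [swap_apply_left, swap_apply_of_ne_of_ne hx1 hx2,
                swap_apply_of_ne_of_ne (Ne.symm hvc') (Ne.symm hx2), swap_apply_right]
            · rw [swap_apply_of_ne_of_ne hx1 hx2, swap_apply_of_ne_of_ne hx3 hx2,
                swap_apply_of_ne_of_ne hx1 hx3, swap_apply_of_ne_of_ne hx3 hx2]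
    have hfix : ∀ w, S (swap c c' • w) = S w := by
      apply hB
      intro a ha
      apply swap_apply_of_ne_of_ne
      · rintro rfl; exact hc ha
      · rintro rfl; exact hc' ha
    rw [h1, mul_smul, mul_smul, hfix, hs, hfix]
  intro g hg w
  by_cases hgv : g v = v
  · apply hB
    intro a ha
    by_cases hav : a = v
    · rw [hav, hgv]
    · exact hg a (mem_erase.2 ⟨hav, ha⟩)
  · have hgB : g v ∉ B := by
      intro h
      have h1 := hg (g v) (mem_erase.2 ⟨hgv, h⟩)
      exact hgv (g.injective h1)
    have h1 : g = swap v (g v) * (swap v (g v) * g) := by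
      rw [← mul_assoc, swap_mul_self, one_mul]
    rw [h1, mul_smul, hs' _ hgB]
    apply hB
    intro a ha
    rw [Perm.mul_apply]
    by_cases hav : a = v
    · rw [hav, swap_apply_right]
    · rw [hg a (mem_erase.2 ⟨hav, ha⟩)]
      apply swap_apply_of_ne_of_ne hav
      rintro rfl
      exact hgB ha

/-- the copies of `A` -/
theorem exists_copies (A : Finset α) (K : ℕ) (h : A.card * (2 * K + 1) ≤ Fintype.card α) :
    ∃ ι : Option (Fin K × Bool) × {a // a ∈ A} ↪ α, ∀ a, ι (none, a) = a := by
  classical
  have h1 : Fintype.card ((Fin K × Bool) × {a // a ∈ A}) ≤ Fintype.card {x // x ∉ A} := by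
    rw [Fintype.card_prod, Fintype.card_prod, Fintype.card_fin, Fintype.card_bool,
      Fintype.card_coe, Fintype.card_subtype_compl, Fintype.card_coe]
    have : A.card * (2 * K + 1) = K * 2 * A.card + A.card := by ring
    omega
  obtain ⟨e⟩ := Function.Embedding.nonempty_of_card_le h1
  refine ⟨⟨fun p => p.1.elim (p.2 : α) (fun q => (e (q, p.2) : α)), ?_⟩, fun a => rfl⟩
  rintro ⟨j, a⟩ ⟨j', a'⟩ hh
  rcases j with _ | q <;> rcases j' with _ | q'
  · simp only [Option.elim] at hh
    rw [Subtype.ext hh]
  · simp only [Option.elim] at hh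
    exfalso
    exact (e (q', a')).2 (hh ▸ a.2)
  · simp only [Option.elim] at hh
    exfalso
    exact (e (q, a)).2 (hh ▸ a'.2)
  · simp only [Option.elim] at hh
    have h2 := e.injective (Subtype.ext hh)
    rw [Prod.mk.injEq] at h2
    rw [h2.1, h2.2]

/-- uniqueness of the extension -/
theorem uniq_ext {k b : ℕ} (hk : ∀ w : W, Loc k (univ : Finset α) w) {S S₀ : W → ZMod 2}
    {B B₀ A : Finset α} (hB : SpF B S) (hB₀ : SpF B₀ S₀)
    (hmin : ∀ B' : Finset α, SpF B' S₀ → B₀.card ≤ B'.card) (hBB : B.card ≤ B₀.card)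
    (hb : B₀.card ≤ b) (hA : B₀ ⊆ A) (hAc : A.card = 2 * b + k + 1)
    (heq : ∀ w, Loc k A w → S w = S₀ w) : S = S₀ := by
  classical
  have hsub : B₀ ⊆ B := by
    intro v hv
    by_contra hvB
    obtain ⟨c, hcA, hc⟩ : ∃ c ∈ A, c ∉ B ∪ B₀ := by
      by_contra hcon
      push Not at hcon
      have h1 := card_le_card (fun c hc => hcon c hc : A ⊆ B ∪ B₀)
      have h2 := card_union_le B B₀
      omega
    rw [mem_union, not_or] at hc
    have hs : ∀ w, S₀ (swap v c • w) = S₀ w := by
      intro w
      obtain ⟨π, hπ1, hπ2⟩ := Loc.move (k := k) A (insert c B₀)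
        (insert_subset hcA hA) (by
          have := card_insert_le c B₀
          omega) (hk w)
      have hcomm : swap v c * π = π * swap v c := by
        have h1 : π v = v := hπ1 v (mem_insert_of_mem hv)
        have h2 : π c = c := hπ1 c (mem_insert_self _ _)
        have h3 := Equiv.mul_swap_eq_swap_mul π v c
        rw [h1, h2] at h3
        exact h3.symm
      have hπB : ∀ w, S₀ (π • w) = S₀ w := hB₀ π fun a ha => hπ1 a (mem_insert_of_mem ha)
      have hloc : Loc k A (swap v c • (π • w)) := by
        apply hπ2.smul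
        intro a ha
        by_cases h1 : a = v
        · rw [h1, swap_apply_left]
          exact hcA
        · by_cases h2 : a = c
          · rw [h2, swap_apply_right]
            exact hA hv
          · rw [swap_apply_of_ne_of_ne h1 h2]
            exact ha
      have hfix : ∀ w, S (swap v c • w) = S w := by
        apply hB
        intro a ha
        apply swap_apply_of_ne_of_ne
        · rintro rfl; exact hvB ha
        · rintro rfl; exact hc.1 ha
      calc S₀ (swap v c • w) = S₀ (π • (swap v c • w)) := (hπB _).symm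
        _ = S₀ (swap v c • (π • w)) := by rw [← mul_smul, ← mul_smul, hcomm]
        _ = S (swap v c • (π • w)) := (heq _ hloc).symm
        _ = S (π • w) := hfix _
        _ = S₀ (π • w) := heq _ hπ2
        _ = S₀ w := hπB _
    have h1 := hmin _ (hB₀.erase hv hc.2 hs)
    rw [card_erase_of_mem hv] at h1
    have h2 := card_pos.2 ⟨v, hv⟩
    omega
  have hBeq : B₀ = B := eq_of_subset_of_card_le hsub hBB
  funext w
  obtain ⟨π, hπ1, hπ2⟩ := Loc.move (k := k) A B₀ hA (by omega) (hk w)
  rw [← hB₀ π hπ1 w, ← hB π (by rw [← hBeq]; exact hπ1) w]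
  exact heq _ hπ2

/-- **The Fourier support consists of invariant functions.** -/
theorem invariant_support {k b : ℕ} (F : (W → ZMod 2) → ℝ) (h01 : ∀ x, F x = 0 ∨ F x = 1)
    (hinv : ∀ (g : Perm α) x, F (ac g x) = F x) (hk : ∀ w : W, Loc k (univ : Finset α) w)
    (hB : ∀ S, ft F S ≠ 0 → ∃ B : Finset α, B.card ≤ b ∧ SpF B S)
    (hn : (2 * b + k + 1) * (4 * b + 3) ≤ Fintype.card α) :
    ∀ S, ft F S ≠ 0 → ∀ (g : Perm α) (w : W), S (g • w) = S w := by
  classical
  choose ms hms1 hms2 using fun S : W → ZMod 2 => exists_min_sup (α := α) S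
  by_cases hne : (univ.filter fun S : W → ZMod 2 => ft F S ≠ 0).Nonempty
  swap
  · rw [not_nonempty_iff_eq_empty] at hne
    intro S hS
    have : S ∈ univ.filter fun S : W → ZMod 2 => ft F S ≠ 0 := by
      rw [mem_filter]; exact ⟨mem_univ _, hS⟩
    rw [hne] at this
    exact absurd this (notMem_empty _)
  obtain ⟨S₀, hS₀, hmax⟩ := Finset.exists_max_image _ (fun S => (ms S).card) hne
  rw [mem_filter] at hS₀
  have hms : ∀ S, ft F S ≠ 0 → (ms S).card ≤ b := by
    intro S hS
    obtain ⟨B, hB1, hB2⟩ := hB S hS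
    exact (hms2 S B hB2).trans hB1
  have hn0 : 2 * b + k + 1 ≤ Fintype.card α := by nlinarith
  obtain ⟨A, hA, _, hAc⟩ := Finset.exists_subsuperset_card_eq
    (subset_univ (ms S₀)) (n := 2 * b + k + 1) (by have := hms S₀ hS₀.2; omega)
    (by rw [card_univ]; exact hn0)
  obtain ⟨ι, hι⟩ := exists_copies A (2 * b + 1) (by
    rw [hAc]
    refine le_trans (le_of_eq ?_) hn
    ring)
  have huniq : ∀ S, ft F S ≠ 0 → (∀ w ∈ (LA k A : Finset W), S w = S₀ w) → S = S₀ := by
    intro S hS heq
    exact uniq_ext (k := k) (b := b) hk (hms1 S) (hms1 S₀) (hms2 S₀)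
      (hmax S (by rw [mem_filter]; exact ⟨mem_univ _, hS⟩)) (hms S₀ hS₀.2) hA hAc
      fun w hw => heq w (mem_LA.2 hw)
  have hres := restricted F (LA k A) S₀ huniq
  have hb2k : b + 2 * k ≤ Fintype.card α := by
    nlinarith
  have hconst : ∀ u v, Loc k A u → Loc k A v → ∀ r : Perm α, v = r • u → S₀ u = S₀ v := by
    intro u v hu hv r hr
    by_contra huv
    have huv' : u ≠ v := fun h => huv (by rw [h])
    have hsum : ∑ x ∈ cub (LA k A), F x * ch S₀ x =
        ∑ x ∈ cub (LA k A), - (F x * ch S₀ x) := by
      refine Finset.sum_bij' (fun x _ => x + (Pi.single u 1 + Pi.single v 1))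
        (fun x _ => x + (Pi.single u 1 + Pi.single v 1)) ?_ ?_ ?_ ?_ ?_
      · intro x hx
        rw [← add_assoc]
        exact (add_single_mem (mem_LA.2 hv)).2 ((add_single_mem (mem_LA.2 hu)).2 hx)
      · intro x hx
        rw [← add_assoc]
        exact (add_single_mem (mem_LA.2 hv)).2 ((add_single_mem (mem_LA.2 hu)).2 hx)
      · intro x _
        rw [add_assoc, char2, add_zero]
      · intro x _
        rw [add_assoc, char2, add_zero]
      · intro x hx
        have hx' : x + (Pi.single u 1 + Pi.single v 1) ∈ cub (LA k A) := by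
          rw [← add_assoc]
          exact (add_single_mem (mem_LA.2 hv)).2 ((add_single_mem (mem_LA.2 hu)).2 hx)
        have h1 := swap_value ι hι F h01 hinv ms (fun S hS => ⟨hms S hS, hms1 S⟩)
          (b := b) (by omega) (by omega) hb2k hx hx' hu hv r hr (by
            rw [← add_assoc, char2, zero_add])
        rw [← h1, ch_add]
        have h2 : ch S₀ (Pi.single u 1 + Pi.single v 1) = -1 := by
          unfold ch
          rw [bl_add_right, bl_single, bl_single]
          rcases zmod2_cases (S₀ u) with h3 | h3 <;> rcases zmod2_cases (S₀ v) with h4 | h4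
          · exact absurd (h3.trans h4.symm) huv
          · rw [h3, h4, zero_add, sg_one]
          · rw [h3, h4, add_zero, sg_one]
          · exact absurd (h3.trans h4.symm) huv
        rw [h2]
        ring
    rw [sum_neg_distrib] at hsum
    have h0 : ∑ x ∈ cub (LA k A), F x * ch S₀ x = 0 := by linarith
    rw [h0, mul_zero] at hres
    have h5 := mul_ne_zero hS₀.2 (cub_card_pos (LA k A : Finset W)).ne'
    exact h5 hres.symm
  have hS₀inv : SpF (∅ : Finset α) S₀ := by
    intro g _ w
    obtain ⟨π, hπ1, hπ2⟩ := Loc.move (k := k) A (ms S₀) hA (by have := hms S₀ hS₀.2; omega) (hk w)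
    obtain ⟨π', hπ'1, hπ'2⟩ := Loc.move (k := k) A (ms S₀) hA (by have := hms S₀ hS₀.2; omega)
      (hk (g • w))
    rw [← hms1 S₀ π' hπ'1 (g • w), ← hms1 S₀ π hπ1 w]
    symm
    refine hconst _ _ hπ2 hπ'2 (π' * g * π⁻¹) ?_
    rw [mul_smul, mul_smul, inv_smul_smul]
  have h0 := hms2 S₀ ∅ hS₀inv
  rw [card_empty] at h0
  intro S hS g w
  have h1 := hmax S (by rw [mem_filter]; exact ⟨mem_univ _, hS⟩)
  have h2 : ms S = ∅ := by
    rw [← card_eq_zero]
    omega
  have h3 := hms1 S
  rw [h2] at h3
  exact h3 g (by simp) w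

end Pool.Agent.TH410.LR
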